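import Mathlib

set_option autoImplicit false

/-!
# Integrals of homogeneous functions against `exp (-p^q)`
-/

namespace Pool.Agent.TH591.Sq

open MeasureTheory Set
open scoped ENNReal NNReal

variable {E : Type*} [NormedAddCommGroup E] [InnerProductSpace ℝ E] [FiniteDimensional ℝ E]
  [MeasurableSpace E] [BorelSpace E]

theorem lint_smul (f : E → ℝ≥0∞) (hf : Measurable f) (r : ℝ) (hr : 0 < r) :
    ∫⁻ x, f (r • x) = ENNReal.ofReal ((r ^ Module.finrank ℝ E)⁻¹) * ∫⁻ x, f x := by
  have h1 := Measure.map_addHaar_smul (volume : Measure E) hr.ne'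
  have h2 : ∫⁻ x, f (r • x) = ∫⁻ y, f y ∂(Measure.map (fun x : E => r • x) volume) :=
    (lintegral_map hf (measurable_const_smul r)).symm
  rw [h2, h1, lintegral_smul_measure, smul_eq_mul, abs_of_pos (by positivity)]

theorem lint_gamma (z : ℝ) (hz : 0 ≤ z) :
    ∫⁻ s in Ioi (0 : ℝ), ENNReal.ofReal (Real.exp (-s)) * ENNReal.ofReal (s ^ z)
      = ENNReal.ofReal (Real.Gamma (z + 1)) := by
  have h1 : Real.Gamma (z + 1) = ∫ s in Ioi (0 : ℝ), Real.exp (-s) * s ^ z := by
    rw [Real.Gamma_eq_integral (by positivity)]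
    refine setIntegral_congr_fun measurableSet_Ioi fun s hs => ?_
    show Real.exp (-s) * s ^ (z + 1 - 1) = Real.exp (-s) * s ^ z
    rw [add_sub_cancel_right]
  have h2 : IntegrableOn (fun s : ℝ => Real.exp (-s) * s ^ z) (Ioi 0) := by
    have h := Real.GammaIntegral_convergent (s := z + 1) (by positivity)
    refine h.congr_fun (fun s hs => ?_) measurableSet_Ioi
    show Real.exp (-s) * s ^ (z + 1 - 1) = Real.exp (-s) * s ^ z
    rw [add_sub_cancel_right]
  rw [h1, ofReal_integral_eq_lintegral_ofReal h2]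
  · refine setLIntegral_congr_fun measurableSet_Ioi fun s hs => ?_
    rw [ENNReal.ofReal_mul (Real.exp_pos _).le]
  · filter_upwards [ae_restrict_mem measurableSet_Ioi] with s hs
    have : (0 : ℝ) < s := hs
    positivity

theorem lint_exp (c : ℝ) :
    ∫⁻ s in Ici c, ENNReal.ofReal (Real.exp (-s)) = ENNReal.ofReal (Real.exp (-c)) := by
  rw [setLIntegral_congr (Ioi_ae_eq_Ici (a := c) (μ := volume)).symm]
  have h2 : IntegrableOn (fun s : ℝ => Real.exp (-s)) (Ioi c) := by
    have h := exp_neg_integrableOn_Ioi c (b := 1) one_pos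
    refine h.congr_fun (fun s _ => ?_) measurableSet_Ioi
    simp
  rw [← ofReal_integral_eq_lintegral_ofReal h2
    (Filter.Eventually.of_forall fun _ => (Real.exp_pos _).le), integral_exp_neg_Ioi]

/-- the integral of a homogeneous function over the ball of radius `s` -/
theorem lint_ball (p : Seminorm ℝ E) (hp : Continuous p) (φ : E → ℝ≥0∞) (hφ : Measurable φ) (k : ℝ)
    (hk : ∀ s : ℝ, 0 < s → ∀ x, φ (s • x) = ENNReal.ofReal (s ^ k) * φ x) (s : ℝ) (hs0 : 0 < s) :
    ∫⁻ x in {x : E | p x ≤ s}, φ x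
      = ENNReal.ofReal (s ^ ((Module.finrank ℝ E : ℝ) + k)) * ∫⁻ x in {x : E | p x ≤ 1}, φ x := by
  set d := Module.finrank ℝ E with hd
  have hm1 : MeasurableSet {x : E | p x ≤ 1} := (isClosed_le hp continuous_const).measurableSet
  have hms : MeasurableSet {x : E | p x ≤ s} := (isClosed_le hp continuous_const).measurableSet
  have h2 := lint_smul ({x : E | p x ≤ s}.indicator φ) (hφ.indicator hms) s hs0
  have h3 : ∀ x : E, {x : E | p x ≤ s}.indicator φ (s • x)
      = ENNReal.ofReal (s ^ k) * {x : E | p x ≤ 1}.indicator φ x := by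
    intro x
    have hps : p (s • x) = s * p x := by
      rw [map_smul_eq_mul, Real.norm_of_nonneg hs0.le]
    by_cases h : p x ≤ 1
    · rw [indicator_of_mem (show x ∈ {x : E | p x ≤ 1} from h), indicator_of_mem, hk s hs0]
      show p (s • x) ≤ s
      rw [hps]; nlinarith
    · rw [indicator_of_notMem (show x ∉ {x : E | p x ≤ 1} from h), indicator_of_notMem, mul_zero]
      intro h'
      apply h
      have h'' : p (s • x) ≤ s := h'
      rw [hps] at h''
      exact le_of_mul_le_mul_left (by linarith) hs0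
  simp only [h3] at h2
  rw [lintegral_const_mul _ (hφ.indicator hm1), lintegral_indicator hm1,
    lintegral_indicator hms] at h2
  have h4 : ENNReal.ofReal (s ^ d) * ENNReal.ofReal ((s ^ d)⁻¹) = 1 := by
    rw [← ENNReal.ofReal_mul (by positivity), mul_inv_cancel₀ (by positivity), ENNReal.ofReal_one]
  have h5 : ∫⁻ x in {x : E | p x ≤ s}, φ x
      = ENNReal.ofReal (s ^ d) * (ENNReal.ofReal (s ^ k) * ∫⁻ x in {x : E | p x ≤ 1}, φ x) := by
    rw [h2, ← mul_assoc, h4, one_mul]
  rw [h5, Real.rpow_add hs0, Real.rpow_natCast, ENNReal.ofReal_mul (by positivity)]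
  ring

/-- The layer-cake formula for a homogeneous function. -/
theorem layer (q : ℝ) (hq : 0 < q) (p : Seminorm ℝ E) (hp : Continuous p) (φ : E → ℝ≥0∞)
    (hφ : Measurable φ) (k : ℝ) (hk0 : 0 ≤ k)
    (hk : ∀ s : ℝ, 0 < s → ∀ x, φ (s • x) = ENNReal.ofReal (s ^ k) * φ x) :
    ∫⁻ x, φ x * ENNReal.ofReal (Real.exp (-(p x) ^ q))
      = ENNReal.ofReal (Real.Gamma (((Module.finrank ℝ E : ℝ) + k) / q + 1))
        * ∫⁻ x in {x : E | p x ≤ 1}, φ x := by
  set d := Module.finrank ℝ E with hd
  have hpq : Continuous fun x => p x ^ q :=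
    hp.rpow_const fun x => Or.inr hq.le
  let A : Set (E × ℝ) := {z | p z.1 ^ q ≤ z.2}
  have hA : MeasurableSet A :=
    (isClosed_le (hpq.comp continuous_fst) continuous_snd).measurableSet
  let F : E × ℝ → ℝ≥0∞ := A.indicator fun z => φ z.1 * ENNReal.ofReal (Real.exp (-z.2))
  have hF : Measurable F := by
    refine Measurable.indicator ?_ hA
    exact (hφ.comp measurable_fst).mul
      (ENNReal.measurable_ofReal.comp (Real.measurable_exp.comp measurable_snd.neg))
  have e1 : ∀ x, φ x * ENNReal.ofReal (Real.exp (-(p x) ^ q)) = ∫⁻ s in Ioi (0 : ℝ), F (x, s) := by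
    intro x
    rw [← lint_exp (p x ^ q), ← lintegral_const_mul _ (by fun_prop)]
    have hpx : 0 ≤ p x ^ q := Real.rpow_nonneg (apply_nonneg p x) _
    rw [← lintegral_indicator measurableSet_Ici, ← lintegral_indicator measurableSet_Ioi]
    have hne : ∀ᵐ s : ℝ, s ≠ 0 := by
      have := (measure_singleton (μ := (volume : Measure ℝ)) (0 : ℝ))
      exact compl_mem_ae_iff.mpr this
    refine lintegral_congr_ae ?_
    filter_upwards [hne] with s hs
    by_cases h : p x ^ q ≤ s
    · have h0 : (0 : ℝ) < s := lt_of_le_of_ne (hpx.trans h) (Ne.symm hs)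
      rw [indicator_of_mem (show s ∈ Ici (p x ^ q) from h),
        indicator_of_mem (show s ∈ Ioi (0:ℝ) from h0)]
      show _ = A.indicator _ (x, s)
      rw [indicator_of_mem (show (x, s) ∈ A from h)]
    · rw [indicator_of_notMem (show s ∉ Ici (p x ^ q) from h)]
      symm
      by_cases h0 : (0 : ℝ) < s
      · rw [indicator_of_mem (show s ∈ Ioi (0:ℝ) from h0)]
        show A.indicator _ (x, s) = 0
        rw [indicator_of_notMem (show (x, s) ∉ A from h)]
      · rw [indicator_of_notMem (show s ∉ Ioi (0:ℝ) from h0)]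
  simp only [e1]
  have hswap := lintegral_lintegral_swap (μ := (volume : Measure E))
    (ν := (volume : Measure ℝ).restrict (Ioi 0)) (f := fun x s => F (x, s)) hF.aemeasurable
  rw [hswap]
  have e2 : ∀ s ∈ Ioi (0 : ℝ), ∫⁻ x, F (x, s)
      = ENNReal.ofReal (Real.exp (-s)) * ENNReal.ofReal (s ^ (((d : ℝ) + k) / q))
        * ∫⁻ x in {x : E | p x ≤ 1}, φ x := by
    intro s hs
    have hs0 : (0 : ℝ) < s := hs
    have hs1 : 0 < s ^ (1 / q) := Real.rpow_pos_of_pos hs0 _
    have hset : ∀ x : E, p x ^ q ≤ s ↔ p x ≤ s ^ (1 / q) := by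
      intro x
      rw [one_div, Real.le_rpow_inv_iff_of_pos (apply_nonneg p x) hs0.le hq]
    have hms : MeasurableSet {x : E | p x ≤ s ^ (1 / q)} :=
      (isClosed_le hp continuous_const).measurableSet
    have h1 : (fun x => F (x, s))
        = fun x => ENNReal.ofReal (Real.exp (-s)) * {x : E | p x ≤ s ^ (1 / q)}.indicator φ x := by
      funext x
      show A.indicator _ (x, s) = _
      by_cases h : p x ^ q ≤ s
      · rw [indicator_of_mem (show (x, s) ∈ A from h),
          indicator_of_mem (show x ∈ {x : E | p x ≤ s ^ (1 / q)} from (hset x).1 h), mul_comm]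
      · rw [indicator_of_notMem (show (x, s) ∉ A from h),
          indicator_of_notMem (show x ∉ {x : E | p x ≤ s ^ (1 / q)} from fun h' => h ((hset x).2 h')),
          mul_zero]
    rw [h1, lintegral_const_mul _ (hφ.indicator hms), lintegral_indicator hms,
      lint_ball p hp φ hφ k hk _ hs1, ← Real.rpow_mul hs0.le, mul_assoc]
    congr 4
    ring
  rw [setLIntegral_congr_fun measurableSet_Ioi e2, lintegral_mul_const _ (by fun_prop),
    lint_gamma _ (by positivity)]

end Pool.Agent.TH591.Sq
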