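import Mathlib
import Pool.Agent.TH264.MP.PL
import Pool.Agent.TH591.Sq.Piece
import Pool.Agent.TH591.Sq.Layer

set_option autoImplicit false
set_option linter.unusedSectionVars false

/-!
# Marginals of `exp (-p^q)`
-/

namespace Pool.Agent.TH591.Sq

open MeasureTheory Set
open scoped ENNReal NNReal

variable {E : Type*} [NormedAddCommGroup E] [InnerProductSpace ℝ E] [FiniteDimensional ℝ E]
  [MeasurableSpace E] [BorelSpace E] {a b : ℕ}

/-- `exp (-p^q)` -/
noncomputable def ex (q : ℝ) (p : Seminorm ℝ E) (x : E) : ℝ≥0∞ :=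
  ENNReal.ofReal (Real.exp (-(p x) ^ q))

theorem powcont (q : ℝ) (hq : 1 ≤ q) (p : Seminorm ℝ E) (hp : Continuous p) :
    Continuous fun x => p x ^ q :=
  hp.rpow_const fun x => Or.inr (by linarith)

theorem ex_meas (q : ℝ) (hq : 1 ≤ q) (p : Seminorm ℝ E) (hp : Continuous p) :
    Measurable (ex q p) := by
  unfold ex
  exact (Real.measurable_exp.comp (powcont q hq p hp).measurable.neg).ennreal_ofReal

theorem ex_pos (q : ℝ) (p : Seminorm ℝ E) (x : E) : 0 < ex q p x := by
  unfold ex; rw [ENNReal.ofReal_pos]; exact Real.exp_pos _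

/-- the `q`-th power of a seminorm is an even convex function, homogeneous of degree `q` -/
theorem qh_pow {G : Type*} [AddCommGroup G] [Module ℝ G] (q : ℝ) (hq : 1 ≤ q)
    (p : Seminorm ℝ G) (a b : G) (s : ℝ) (hs : 0 ≤ s) (hs1 : s ≤ 1) :
    p (s • a + (1 - s) • b) ^ q ≤ s * p a ^ q + (1 - s) * p b ^ q := by
  have h1 : p (s • a + (1 - s) • b) ≤ s * p a + (1 - s) * p b := by
    refine (map_add_le_add p _ _).trans (le_of_eq ?_)
    rw [map_smul_eq_mul, map_smul_eq_mul, Real.norm_of_nonneg hs,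
      Real.norm_of_nonneg (by linarith)]
  have h2 := (convexOn_rpow hq).2 (show p a ∈ Ici (0 : ℝ) from apply_nonneg p a)
    (show p b ∈ Ici (0 : ℝ) from apply_nonneg p b) hs (show 0 ≤ 1 - s by linarith) (by ring)
  simp only [smul_eq_mul] at h2
  exact (Real.rpow_le_rpow (apply_nonneg p _) h1 (by linarith)).trans h2

theorem qh_hom {G : Type*} [AddCommGroup G] [Module ℝ G] (q : ℝ)
    (p : Seminorm ℝ G) (s : ℝ) (y : G) (hs : 0 < s) : p (s • y) ^ q = s ^ q * p y ^ q := by
  rw [map_smul_eq_mul, Real.norm_of_nonneg hs.le, Real.mul_rpow hs.le (apply_nonneg p y)]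

theorem qh_seminorm {F : Type*} [NormedAddCommGroup F] [NormedSpace ℝ F] (q : ℝ) (hq : 1 ≤ q)
    (p : Seminorm ℝ F) (hp : Continuous p) : QH q fun y => p y ^ q where
  cont := hp.rpow_const fun x => Or.inr (by linarith)
  nonneg y := Real.rpow_nonneg (apply_nonneg p y) _
  even y := by rw [map_neg_eq_map]
  conv a b s hs hs1 := qh_pow q hq p a b s hs hs1
  hom s y hs := qh_hom q p s y hs

theorem ex_logc (q : ℝ) (hq : 1 ≤ q) (p : Seminorm ℝ E) (x y : E) (s : ℝ) (hs : 0 < s)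
    (hs1 : s < 1) :
    ex q p x ^ s * ex q p y ^ (1 - s) ≤ ex q p (s • x + (1 - s) • y) := by
  unfold ex
  rw [ENNReal.ofReal_rpow_of_pos (Real.exp_pos _), ENNReal.ofReal_rpow_of_pos (Real.exp_pos _),
    ← ENNReal.ofReal_mul (by positivity)]
  apply ENNReal.ofReal_le_ofReal
  rw [← Real.exp_mul, ← Real.exp_mul, ← Real.exp_add]
  apply Real.exp_le_exp.2
  have h1 := qh_pow q hq p x y s hs.le hs1.le
  linarith

/-- the marginal -/
noncomputable def rho (q : ℝ) (p : Seminorm ℝ E) (L : ((Fin a → ℝ) × (Fin b → ℝ)) ≃ₗ[ℝ] E)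
    (y : Fin a → ℝ) : ℝ≥0∞ := ∫⁻ k : Fin b → ℝ, ex q p (L (y, k))

variable (q : ℝ) (hq : 1 ≤ q) (p : Seminorm ℝ E) (hp : Continuous p)
  (L : ((Fin a → ℝ) × (Fin b → ℝ)) ≃ₗ[ℝ] E)

theorem L_cont : Continuous L := L.toLinearMap.continuous_of_finiteDimensional

include hq in
theorem exL_meas (hp : Continuous p) :
    Measurable fun z : (Fin a → ℝ) × (Fin b → ℝ) => ex q p (L z) :=
  (ex_meas q hq p hp).comp (L_cont L).measurable

include hq in
theorem rho_meas (hp : Continuous p) : Measurable (rho q p L) :=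
  (exL_meas q hq p L hp).lintegral_prod_right'

include hq in
theorem rho_pos (hp : Continuous p) (y : Fin a → ℝ) : 0 < rho q p L y := by
  unfold rho
  have hm : Measurable fun k : Fin b → ℝ => ex q p (L (y, k)) :=
    (exL_meas q hq p L hp).comp measurable_prodMk_left
  rw [lintegral_pos_iff_support hm]
  have h1 : (Function.support fun k : Fin b → ℝ => ex q p (L (y, k))) = univ := by
    ext k
    simp only [Function.mem_support, mem_univ, iff_true]
    exact (ex_pos q p _).ne'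
  rw [h1]
  exact Measure.measure_univ_pos.2 (NeZero.ne _)

theorem rho_even (y : Fin a → ℝ) : rho q p L (-y) = rho q p L y := by
  unfold rho
  rw [← lintegral_neg_eq_self]
  refine lintegral_congr fun k => ?_
  unfold ex
  rw [show ((-y, -k) : (Fin a → ℝ) × (Fin b → ℝ)) = -(y, k) by simp, map_neg, map_neg_eq_map]

include hq in
theorem rho_logc (hp : Continuous p) (u v : Fin a → ℝ) (s : ℝ) (hs : 0 < s) (hs1 : s < 1) :
    rho q p L u ^ s * rho q p L v ^ (1 - s) ≤ rho q p L (s • u + (1 - s) • v) := by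
  unfold rho
  have hm : ∀ y : Fin a → ℝ, Measurable fun k : Fin b → ℝ => ex q p (L (y, k)) := fun y =>
    (exL_meas q hq p L hp).comp measurable_prodMk_left
  refine Pool.Agent.TH264.MP.pl b s hs hs1 _ _ _ (hm u) (hm v) (hm _) fun k l => ?_
  have h := ex_logc q hq p (L (u, k)) (L (v, l)) s hs hs1
  rw [← map_smul, ← map_smul, ← map_add] at h
  simpa using h

theorem vol_le_one (c : ℝ) (hc : 0 < c) (hcp : ∀ x, c * ‖x‖ ≤ p x) :
    volume {x : E | p x ≤ 1} < ⊤ := by
  refine lt_of_le_of_lt (measure_mono ?_) (measure_closedBall_lt_top (x := (0 : E)) (r := 1 / c))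
  intro x hx
  rw [mem_closedBall_zero_iff, le_div_iff₀ hc, mul_comm]
  exact (hcp x).trans hx

include hq in
theorem ex_eq (hp : Continuous p) :
    ∫⁻ x, ex q p x = ENNReal.ofReal (Real.Gamma ((Module.finrank ℝ E : ℝ) / q + 1)) *
      volume {x : E | p x ≤ 1} := by
  have h := layer q (by linarith) p hp (fun _ => 1) measurable_const 0 le_rfl
    (fun s _ x => by simp)
  simp only [one_mul, add_zero] at h
  unfold ex
  rw [h, setLIntegral_one]

include hq in
theorem ex_fin (hp : Continuous p) (c : ℝ) (hc : 0 < c) (hcp : ∀ x, c * ‖x‖ ≤ p x) :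
    ∫⁻ x, ex q p x ≠ ⊤ := by
  rw [ex_eq q hq p hp]
  exact ENNReal.mul_ne_top ENNReal.ofReal_ne_top (vol_le_one p c hc hcp).ne

include hq in
theorem ex_mom (hp : Continuous p) :
    ∫⁻ x, ENNReal.ofReal (p x ^ q) * ex q p x
      ≤ ENNReal.ofReal ((Module.finrank ℝ E : ℝ) / q + 1) * ∫⁻ x, ex q p x := by
  have hq0 : 0 < q := by linarith
  have hpq := powcont q hq p hp
  have h1 := layer q hq0 p hp (fun x => ENNReal.ofReal (p x ^ q)) hpq.measurable.ennreal_ofReal q
    hq0.le (fun s hs x => by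
      rw [qh_hom q p s x hs, ENNReal.ofReal_mul (by positivity)])
  have h0 := ex_eq q hq p hp
  rw [h0]
  unfold ex
  rw [h1]
  have e : ((Module.finrank ℝ E : ℝ) + q) / q + 1 = ((Module.finrank ℝ E : ℝ) / q + 1) + 1 := by
    field_simp
  rw [e, Real.Gamma_add_one (by positivity), ENNReal.ofReal_mul (by positivity), mul_assoc]
  gcongr
  calc ∫⁻ x in {x : E | p x ≤ 1}, ENNReal.ofReal (p x ^ q)
      ≤ ∫⁻ x in {x : E | p x ≤ 1}, 1 := by
        refine setLIntegral_mono measurable_const fun x hx => ?_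
        rw [← ENNReal.ofReal_one]
        exact ENNReal.ofReal_le_ofReal (Real.rpow_le_one (apply_nonneg p x) hx hq0.le)
    _ = _ := setLIntegral_one _

/-- the change of variables -/
theorem exists_kappa : ∃ κ : ℝ≥0∞, κ ≠ 0 ∧ κ ≠ ⊤ ∧ ∀ f : E → ℝ≥0∞, Measurable f →
    ∫⁻ x, f x = κ * ∫⁻ y : Fin a → ℝ, ∫⁻ k : Fin b → ℝ, f (L (y, k)) := by
  let Lc : ((Fin a → ℝ) × (Fin b → ℝ)) ≃L[ℝ] E := L.toContinuousLinearEquiv
  let ν : Measure ((Fin a → ℝ) × (Fin b → ℝ)) := (volume : Measure (Fin a → ℝ)).prod volume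
  have : ν.IsAddHaarMeasure := Measure.prod.instIsAddHaarMeasure _ _
  let μ' : Measure E := Measure.map Lc ν
  have : μ'.IsAddHaarMeasure := Lc.isAddHaarMeasure_map ν
  have h1 : (volume : Measure E) = (Measure.addHaarScalarFactor volume μ') • μ' :=
    Measure.isAddLeftInvariant_eq_smul volume μ'
  refine ⟨(Measure.addHaarScalarFactor volume μ' : ℝ≥0), ?_, ENNReal.coe_ne_top, fun f hf => ?_⟩
  · have h2 := Measure.addHaarScalarFactor_pos_of_isAddHaarMeasure (volume : Measure E) μ'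
    exact_mod_cast h2.ne'
  · have hm : Measurable fun z : (Fin a → ℝ) × (Fin b → ℝ) => f (L z) :=
      hf.comp (L_cont L).measurable
    calc ∫⁻ x, f x = ∫⁻ x, f x ∂((Measure.addHaarScalarFactor volume μ') • μ') := by rw [← h1]
      _ = (Measure.addHaarScalarFactor volume μ' : ℝ≥0) * ∫⁻ x, f x ∂μ' := by
          rw [lintegral_smul_measure]; rfl
      _ = (Measure.addHaarScalarFactor volume μ' : ℝ≥0) * ∫⁻ z, f (L z) ∂ν := by
          congr 1
          exact lintegral_map hf (L_cont L).measurable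
      _ = _ := by
          rw [lintegral_prod _ hm.aemeasurable]

include hq in
theorem rho_fin (hp : Continuous p) (c : ℝ) (hc : 0 < c) (hcp : ∀ x, c * ‖x‖ ≤ p x) :
    ∫⁻ y, rho q p L y ≠ ⊤ := by
  obtain ⟨κ, h0, ht, h⟩ := exists_kappa L
  have h1 := h (ex q p) (ex_meas q hq p hp)
  have h2 := ex_fin q hq p hp c hc hcp
  rw [h1] at h2
  intro h3
  apply h2
  show κ * ∫⁻ y : Fin a → ℝ, rho q p L y = ⊤
  rw [h3, ENNReal.mul_top h0]

include hq in
theorem rho_zero_fin (hp : Continuous p) (c : ℝ) (hc : 0 < c) (hcp : ∀ x, c * ‖x‖ ≤ p x) :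
    rho q p L 0 ≠ ⊤ := by
  intro h0
  have h1 : ∀ y, rho q p L y = ⊤ := by
    intro y
    have h2 := rho_logc q hq p L hp ((2 : ℝ) • y) 0 (1 / 2) (by norm_num) (by norm_num)
    rw [h0, smul_zero, add_zero, smul_smul] at h2
    norm_num at h2
    have h3 : rho q p L ((2 : ℝ) • y) ^ (1 / 2 : ℝ) ≠ 0 := by
      have := rho_pos q hq p L hp ((2 : ℝ) • y)
      exact (ENNReal.rpow_pos_of_nonneg this (by norm_num)).ne'
    rw [ENNReal.mul_top h3] at h2
    exact top_le_iff.1 h2
  apply rho_fin q hq p L hp c hc hcp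
  simp only [h1]
  rw [lintegral_const]
  exact ENNReal.top_mul (Measure.measure_univ_ne_zero.2 (NeZero.ne _))

include hq in
theorem rho_lt_top (hp : Continuous p) (c : ℝ) (hc : 0 < c) (hcp : ∀ x, c * ‖x‖ ≤ p x)
    (y : Fin a → ℝ) : rho q p L y < ⊤ := by
  have h2 := rho_logc q hq p L hp y (-y) (1 / 2) (by norm_num) (by norm_num)
  rw [rho_even, show (1 / 2 : ℝ) • y + (1 - 1 / 2 : ℝ) • (-y) = 0 by module,
    ← ENNReal.rpow_add_of_nonneg _ _ (by norm_num) (by norm_num)] at h2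
  norm_num at h2
  exact lt_of_le_of_lt h2 (rho_zero_fin q hq p L hp c hc hcp).lt_top

end Pool.Agent.TH591.Sq
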