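import Mathlib
import Pool.Agent.TH591.Sq.Marg

set_option autoImplicit false
set_option linter.unusedSectionVars false

/-!
# The marginal of `exp (-p^q)` is an admissible density; the averaged second difference on `E`
-/

namespace Pool.Agent.TH591.Sq

open MeasureTheory Set
open scoped ENNReal NNReal

section
variable {F : Type*} [NormedAddCommGroup F] [NormedSpace ℝ F] [FiniteDimensional ℝ F]

theorem semi_cont (η : Seminorm ℝ F) : Continuous η := (η.convexOn.locallyLipschitz).continuous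

theorem semi_bound (η : Seminorm ℝ F) : ∃ C, 0 < C ∧ ∀ x, η x ≤ C * ‖x‖ :=
  Seminorm.bound_of_continuous_normedSpace η (semi_cont η)

theorem qh_bound {q : ℝ} (hq : 1 ≤ q) {H : F → ℝ} (hH : QH q H) :
    ∃ C, 0 < C ∧ ∀ x, H x ≤ C * ‖x‖ ^ q := by
  have hS : IsCompact (Metric.sphere (0 : F) 1) := isCompact_sphere 0 1
  obtain ⟨C, hC⟩ := (hS.bddAbove_image hH.cont.continuousOn)
  refine ⟨max C 1, by positivity, fun x => ?_⟩
  have hq0 : 0 < q := by linarith
  rcases eq_or_ne x 0 with rfl | hx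
  · have h1 := hH.hom 2 0 (by norm_num)
    rw [smul_zero] at h1
    have h2 : (1 : ℝ) < 2 ^ q := Real.one_lt_rpow (by norm_num) hq0
    have h3 : H 0 = 0 := by
      have h4 : (2 ^ q - 1) * H 0 = 0 := by linarith
      rcases mul_eq_zero.1 h4 with h5 | h5
      · linarith
      · exact h5
    rw [h3]
    positivity
  · have hn : 0 < ‖x‖ := norm_pos_iff.2 hx
    have h1 := hH.hom ‖x‖ (‖x‖⁻¹ • x) hn
    rw [smul_smul, mul_inv_cancel₀ hn.ne', one_smul] at h1
    rw [h1, mul_comm]
    have h2 : H (‖x‖⁻¹ • x) ≤ C := by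
      apply hC
      refine ⟨_, ?_, rfl⟩
      rw [mem_sphere_zero_iff_norm, norm_smul, norm_inv, norm_norm, inv_mul_cancel₀ hn.ne']
    have h3 : 0 ≤ ‖x‖ ^ q := by positivity
    exact mul_le_mul_of_nonneg_right (h2.trans (le_max_left _ _)) h3
end

variable {E : Type*} [NormedAddCommGroup E] [InnerProductSpace ℝ E] [FiniteDimensional ℝ E]
  [MeasurableSpace E] [BorelSpace E] {a b : ℕ}

variable (q : ℝ) (hq : 1 ≤ q) (p : Seminorm ℝ E) (hp : Continuous p)
  (L : ((Fin a → ℝ) × (Fin b → ℝ)) ≃ₗ[ℝ] E)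

include hq in
theorem lint_rho_mul (hp : Continuous p) (κ : ℝ≥0∞)
    (hκ : ∀ f : E → ℝ≥0∞, Measurable f →
      ∫⁻ x, f x = κ * ∫⁻ y : Fin a → ℝ, ∫⁻ k : Fin b → ℝ, f (L (y, k)))
    (G : E → ℝ≥0∞) (g : (Fin a → ℝ) → ℝ≥0∞) (hG : Measurable G)
    (hg : ∀ y k, G (L (y, k)) = g y) :
    ∫⁻ x, ex q p x * G x = κ * ∫⁻ y, rho q p L y * g y := by
  rw [hκ (fun x => ex q p x * G x) ((ex_meas q hq p hp).mul hG)]
  congr 1
  refine lintegral_congr fun y => ?_
  simp only [hg]
  rw [lintegral_mul_const]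
  · rfl
  · exact (exL_meas q hq p L hp).comp measurable_prodMk_left

include hq in
theorem rr_dens (hp : Continuous p) (c : ℝ) (hc : 0 < c) (hcp : ∀ x, c * ‖x‖ ≤ p x) :
    Dens q (volume : Measure (Fin a → ℝ)) (fun y => (rho q p L y).toReal) where
  meas := (rho_meas q hq p L hp).ennreal_toReal
  pos y := ENNReal.toReal_pos (rho_pos q hq p L hp y).ne' (rho_lt_top q hq p L hp c hc hcp y).ne
  even y := by rw [rho_even]
  logc u v s hs hs1 := by
    have h := rho_logc q hq p L hp u v s hs hs1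
    rw [ENNReal.toReal_rpow, ENNReal.toReal_rpow, ← ENNReal.toReal_mul]
    exact ENNReal.toReal_mono (rho_lt_top q hq p L hp c hc hcp _).ne h
  int := integrable_toReal_of_lintegral_ne_top (rho_meas q hq p L hp).aemeasurable
    (rho_fin q hq p L hp c hc hcp)
  mom η hη := by
    obtain ⟨κ, hκ0, hκt, hκ⟩ := exists_kappa L
    have hηc := hη.cont
    -- the function on `E`
    let A : E →ₗ[ℝ] (Fin a → ℝ) := (LinearMap.fst ℝ (Fin a → ℝ) (Fin b → ℝ)).comp
      L.symm.toLinearMap
    have hAc : Continuous A := A.continuous_of_finiteDimensional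
    have hh : ∀ y k, η (A (L (y, k))) = η y := by
      intro y k
      show η ((L.symm (L (y, k))).1) = η y
      rw [LinearEquiv.symm_apply_apply]
    have hH : QH q fun x => η (A x) := by
      refine ⟨hηc.comp hAc, fun y => hη.nonneg _, fun y => ?_, fun u v s hs hs1 => ?_,
        fun s y hs => ?_⟩
      · rw [map_neg, hη.even]
      · rw [map_add, map_smul, map_smul]
        exact hη.conv _ _ s hs hs1
      · rw [map_smul, hη.hom s _ hs]
    obtain ⟨C, hC0, hC⟩ := qh_bound hq hH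
    have h1 := lint_rho_mul q hq p L hp κ hκ (fun x => ENNReal.ofReal (η (A x)))
      (fun y => ENNReal.ofReal (η y)) hH.cont.measurable.ennreal_ofReal
      (fun y k => by rw [hh])
    have hq0 : 0 < q := by linarith
    have h2 : ∫⁻ x, ex q p x * ENNReal.ofReal (η (A x)) ≠ ⊤ := by
      have h3 := ex_mom q hq p hp
      have h4 := ex_fin q hq p hp c hc hcp
      have h5 : ∫⁻ x, ex q p x * ENNReal.ofReal (η (A x))
          ≤ ENNReal.ofReal (C / c ^ q) * ∫⁻ x, ENNReal.ofReal (p x ^ q) * ex q p x := by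
        rw [← lintegral_const_mul' _ _ ENNReal.ofReal_ne_top]
        refine lintegral_mono fun x => ?_
        have h6 : η (A x) ≤ C / c ^ q * p x ^ q := by
          refine (hC x).trans ?_
          have hcq : 0 < c ^ q := by positivity
          rw [div_mul_eq_mul_div, le_div_iff₀ hcq]
          have h7 : (c * ‖x‖) ^ q ≤ p x ^ q := Real.rpow_le_rpow (by positivity) (hcp x) hq0.le
          rw [Real.mul_rpow hc.le (norm_nonneg _)] at h7
          nlinarith
        calc ex q p x * ENNReal.ofReal (η (A x))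
            ≤ ex q p x * ENNReal.ofReal (C / c ^ q * p x ^ q) := by
              gcongr
          _ = _ := by
              rw [ENNReal.ofReal_mul (by positivity)]
              ring
      refine ne_top_of_le_ne_top ?_ h5
      exact ENNReal.mul_ne_top ENNReal.ofReal_ne_top
        (ne_top_of_le_ne_top (ENNReal.mul_ne_top ENNReal.ofReal_ne_top h4) h3)
    have h3 : ∫⁻ y, rho q p L y * ENNReal.ofReal (η y) ≠ ⊤ := by
      intro h4
      rw [h1, h4, ENNReal.mul_top hκ0] at h2
      exact h2 rfl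
    have h4 := integrable_toReal_of_lintegral_ne_top
      ((rho_meas q hq p L hp).mul hηc.measurable.ennreal_ofReal).aemeasurable h3
    refine h4.congr (Filter.Eventually.of_forall fun y => ?_)
    simp only [Pi.mul_apply]
    rw [ENNReal.toReal_mul, ENNReal.toReal_ofReal (hη.nonneg y)]

include hq in
theorem piece_L (hp : Continuous p) (c : ℝ) (hc : 0 < c) (hcp : ∀ x, c * ‖x‖ ≤ p x)
    (h : E → ℝ) (hhc : Continuous h) (η : (Fin a → ℝ) → ℝ) (hQ : QH q η)
    (hη : ∀ y k, h (L (y, k)) = η y)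
    (t : ℝ) (ht0 : 0 < t) (ht : t < 1) (N : ℕ) (hN : 0 < N) :
    ∫⁻ v, ex q p v * ∫⁻ x, ex q p x * ENNReal.ofReal (sd h x ((t / N) • v))
      ≤ ENNReal.ofReal (2 * (K1 q t + t) / ((N : ℝ) ^ 2 * (1 - t) ^ (2 * ((a : ℝ) + q)))) *
        ((∫⁻ x, ex q p x) * ∫⁻ x, ex q p x * ENNReal.ofReal (h x)) := by
  obtain ⟨κ, hκ0, hκt, hκ⟩ := exists_kappa L
  have hηc := hQ.cont
  set δ : ℝ := t / N with hδ
  set r : (Fin a → ℝ) → ℝ := fun y => (rho q p L y).toReal with hr
  have hD : Dens q (volume : Measure (Fin a → ℝ)) r := rr_dens q hq p L hp c hc hcp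
  have hrho : ∀ y, rho q p L y = ENNReal.ofReal (r y) := fun y =>
    (ENNReal.ofReal_toReal (rho_lt_top q hq p L hp c hc hcp y).ne).symm
  have hsdm : ∀ v : E, Measurable fun x => ENNReal.ofReal (sd h x (δ • v)) := by
    intro v
    unfold sd
    have : Continuous fun x => h (x + δ • v) + h (x - δ • v) - 2 * h x := by fun_prop
    exact this.measurable.ennreal_ofReal
  have hsd : ∀ y k y' k', sd h (L (y, k)) (δ • L (y', k')) = sd η y (δ • y') := by
    intro y k y' k'
    have f1 : L (y, k) + δ • L (y', k') = L (y + δ • y', k + δ • k') := by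
      rw [← map_smul, ← map_add]
      rfl
    have f2 : L (y, k) - δ • L (y', k') = L (y - δ • y', k - δ • k') := by
      rw [← map_smul, ← map_sub]
      rfl
    unfold sd
    rw [f1, f2, hη, hη, hη]
  -- the inner integral
  let G : (Fin a → ℝ) → ℝ≥0∞ := fun y' => ∫⁻ y, rho q p L y * ENNReal.ofReal (sd η y (δ • y'))
  have hin : ∀ y' k', ∫⁻ x, ex q p x * ENNReal.ofReal (sd h x (δ • L (y', k'))) = κ * G y' := by
    intro y' k'
    exact lint_rho_mul q hq p L hp κ hκ _ (fun y => ENNReal.ofReal (sd η y (δ • y')))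
      (hsdm _) (fun y k => by rw [hsd])
  have hGE : Measurable fun v => ∫⁻ x, ex q p x * ENNReal.ofReal (sd h x (δ • v)) := by
    have h1 : Continuous fun z : E × E => sd h z.2 (δ • z.1) := by
      unfold sd
      fun_prop
    exact (((ex_meas q hq p hp).comp measurable_snd).mul
      h1.measurable.ennreal_ofReal).lintegral_prod_right'
  rw [lint_rho_mul q hq p L hp κ hκ _ (fun y' => κ * G y') hGE hin]
  have hGr : ∀ y', G y' = ENNReal.ofReal (∫ y, r y * sd η y (δ • y')) := by
    intro y'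
    rw [ofReal_integral_eq_lintegral_ofReal (hD.int_sd hQ _)
      (Filter.Eventually.of_forall fun y => mul_nonneg (hD.pos y).le (hQ.sd_nonneg _ _))]
    refine lintegral_congr fun y => ?_
    rw [ENNReal.ofReal_mul (hD.pos y).le, hrho]
  have havg := hD.avg hq hQ t ht0 ht N hN
  rw [Module.finrank_fin_fun] at havg
  have e1 : ∫⁻ y', rho q p L y' * (κ * G y')
      = κ * ∫⁻ v, ENNReal.ofReal (r v * ∫ y, r y * sd η y (δ • v)) := by
    rw [← lintegral_const_mul' _ _ hκt]
    refine lintegral_congr fun y' => ?_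
    rw [hGr, hrho, ENNReal.ofReal_mul (hD.pos _).le]
    ring
  rw [e1]
  have e2 : ∫⁻ x, ex q p x = κ * ENNReal.ofReal (∫ y, r y) := by
    have h1 := lint_rho_mul q hq p L hp κ hκ (fun _ => 1) (fun _ => 1) measurable_const
      (fun _ _ => rfl)
    simp only [mul_one] at h1
    rw [h1, ofReal_integral_eq_lintegral_ofReal hD.int (Filter.Eventually.of_forall fun y =>
      (hD.pos y).le)]
    simp only [hrho]
  have e3 : ∫⁻ x, ex q p x * ENNReal.ofReal (h x) = κ * ENNReal.ofReal (∫ y, r y * η y) := by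
    have h1 := lint_rho_mul q hq p L hp κ hκ (fun x => ENNReal.ofReal (h x))
      (fun y => ENNReal.ofReal (η y)) hhc.measurable.ennreal_ofReal (fun y k => by rw [hη])
    rw [h1, ofReal_integral_eq_lintegral_ofReal (hD.mom η hQ) (Filter.Eventually.of_forall fun y =>
      mul_nonneg (hD.pos y).le (hQ.nonneg _))]
    congr 1
    refine lintegral_congr fun y => ?_
    rw [ENNReal.ofReal_mul (hD.pos y).le, hrho]
  rw [e2, e3]
  have h1t : 0 < 1 - t := by linarith
  have hN' : (0 : ℝ) < N := by exact_mod_cast hN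
  have hK := K1_nonneg hq t ht0.le ht
  have hR0 : 0 ≤ ∫ y, r y := integral_nonneg fun y => (hD.pos y).le
  rw [mul_assoc (2 * (K1 q t + t) / _), ENNReal.ofReal_mul (by positivity),
    ENNReal.ofReal_mul hR0] at havg
  calc κ * (κ * ∫⁻ v, ENNReal.ofReal (r v * ∫ y, r y * sd η y (δ • v)))
      ≤ κ * (κ * (ENNReal.ofReal
          (2 * (K1 q t + t) / ((N : ℝ) ^ 2 * (1 - t) ^ (2 * ((a : ℝ) + q)))) *
        (ENNReal.ofReal (∫ y, r y) * ENNReal.ofReal (∫ y, r y * η y)))) := by gcongr
    _ = _ := by ring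

include hq in
/-- The averaged second difference of the power of a seminorm vanishing on a subspace of
codimension at most `n`. -/
theorem piece_E (hp : Continuous p) (c : ℝ) (hc : 0 < c) (hcp : ∀ x, c * ‖x‖ ≤ p x)
    (h : Seminorm ℝ E) (W : Submodule ℝ E) (hW : ∀ w ∈ W, h w = 0) (n : ℕ)
    (hn : Module.finrank ℝ E ≤ Module.finrank ℝ W + n)
    (t : ℝ) (ht0 : 0 < t) (ht : t < 1) (N : ℕ) (hN : 0 < N) :
    ∫⁻ v, ex q p v * ∫⁻ x, ex q p x * ENNReal.ofReal (sd (fun z => h z ^ q) x ((t / N) • v))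
      ≤ ENNReal.ofReal (2 * (K1 q t + t) / ((N : ℝ) ^ 2 * (1 - t) ^ (2 * ((n : ℝ) + q)))) *
        ((∫⁻ x, ex q p x) * ∫⁻ x, ex q p x * ENNReal.ofReal (h x ^ q)) := by
  obtain ⟨W', hW'⟩ := Submodule.exists_isCompl W
  set a := Module.finrank ℝ W' with ha
  set b := Module.finrank ℝ W with hb
  have hab : a ≤ n := by
    have h1 := Submodule.finrank_add_eq_of_isCompl hW'
    omega
  let e1 : (Fin a → ℝ) ≃ₗ[ℝ] W' := LinearEquiv.ofFinrankEq _ _ (by rw [Module.finrank_fin_fun])
  let e2 : (Fin b → ℝ) ≃ₗ[ℝ] W := LinearEquiv.ofFinrankEq _ _ (by rw [Module.finrank_fin_fun])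
  let L : ((Fin a → ℝ) × (Fin b → ℝ)) ≃ₗ[ℝ] E :=
    (LinearEquiv.prodCongr e1 e2).trans (Submodule.prodEquivOfIsCompl W' W hW'.symm)
  have hL : ∀ y k, L (y, k) = (e1 y : E) + (e2 k : E) := by
    intro y k
    simp [L]
  let η : Seminorm ℝ (Fin a → ℝ) := h.comp (W'.subtype.comp e1.toLinearMap)
  have hη : ∀ y k, h (L (y, k)) = η y := by
    intro y k
    rw [hL]
    show h (e1 y + e2 k) = h (e1 y)
    apply le_antisymm
    · calc h (e1 y + e2 k) ≤ h (e1 y) + h (e2 k) := map_add_le_add h _ _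
        _ = h (e1 y) := by rw [hW _ (e2 k).2, add_zero]
    · calc h (e1 y) = h ((e1 y + e2 k) - e2 k) := by rw [add_sub_cancel_right]
        _ ≤ h (e1 y + e2 k) + h (e2 k) := map_sub_le_add h _ _
        _ = _ := by rw [hW _ (e2 k).2, add_zero]
  refine (piece_L q hq p L hp c hc hcp (fun z => h z ^ q) (powcont q hq h (semi_cont h))
    (fun y => η y ^ q) (qh_seminorm q hq η (semi_cont η)) (fun y k => by rw [hη])
    t ht0 ht N hN).trans ?_
  gcongr ?_ * _
  apply ENNReal.ofReal_le_ofReal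
  have h1t : 0 < 1 - t := by linarith
  have hN' : (0 : ℝ) < N := by exact_mod_cast hN
  have hab' : (a : ℝ) ≤ n := by exact_mod_cast hab
  have h5 : (1 - t) ^ (2 * ((n : ℝ) + q)) ≤ (1 - t) ^ (2 * ((a : ℝ) + q)) :=
    Real.rpow_le_rpow_of_exponent_ge h1t (by linarith) (by linarith)
  have hK := K1_nonneg hq t ht0.le ht
  exact div_le_div_of_nonneg_left (by positivity) (by positivity)
    (mul_le_mul_of_nonneg_left h5 (by positivity))

end Pool.Agent.TH591.Sq
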