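import Mathlib
import Pool.Agent.TH591.Sq.Main

set_option autoImplicit false
set_option linter.unusedSectionVars false

/-!
# Radial weights and the derivative of the norm
-/

namespace Pool.Agent.TH591.Sq

open MeasureTheory Set Filter
open scoped ENNReal NNReal Topology

variable {E : Type*} [NormedAddCommGroup E] [InnerProductSpace ℝ E] [FiniteDimensional ℝ E]
  [MeasurableSpace E] [BorelSpace E]

/-- the integral of `g^k Φ` over the unit ball, for `Φ` homogeneous of degree `0` -/
theorem radial (g : Seminorm ℝ E) (Φ : E → ℝ≥0∞) (hΦ : Measurable Φ)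
    (h0 : ∀ s : ℝ, 0 < s → ∀ x, Φ (s • x) = Φ x) (k : ℝ) (hk : 0 < k) :
    (∫⁻ x in {x : E | g x ≤ 1}, ENNReal.ofReal (g x ^ k) * Φ x)
      + ENNReal.ofReal (k / ((Module.finrank ℝ E : ℝ) + k)) * ∫⁻ x in {x : E | g x ≤ 1}, Φ x
      = ∫⁻ x in {x : E | g x ≤ 1}, Φ x := by
  set d := Module.finrank ℝ E with hd
  have hg := semi_cont g
  set P : Set E := {x : E | g x ≤ 1} with hP
  have hPm : MeasurableSet P := (isClosed_le hg continuous_const).measurableSet
  have hgk : Continuous fun x => g x ^ k := hg.rpow_const fun x => Or.inr hk.le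
  let A : Set (E × ℝ) := {z | g z.1 ^ k ≤ z.2}
  have hA : MeasurableSet A :=
    (isClosed_le (hgk.comp continuous_fst) continuous_snd).measurableSet
  let F : E × ℝ → ℝ≥0∞ := A.indicator fun z => Φ z.1
  have hF : Measurable F := (hΦ.comp measurable_fst).indicator hA
  have e1 : ∀ x ∈ P, ∫⁻ r in Icc (0 : ℝ) 1, F (x, r) = ENNReal.ofReal (1 - g x ^ k) * Φ x := by
    intro x hx
    have hx1 : g x ≤ 1 := hx
    have hx0 : 0 ≤ g x ^ k := Real.rpow_nonneg (apply_nonneg g x) _
    have h1 : (fun r => F (x, r)) = (Ici (g x ^ k)).indicator fun _ => Φ x := by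
      funext r
      show A.indicator _ (x, r) = _
      by_cases h : g x ^ k ≤ r
      · rw [indicator_of_mem (show (x, r) ∈ A from h),
          indicator_of_mem (show r ∈ Ici (g x ^ k) from h)]
      · rw [indicator_of_notMem (show (x, r) ∉ A from h),
          indicator_of_notMem (show r ∉ Ici (g x ^ k) from h)]
    rw [h1, lintegral_indicator measurableSet_Ici, Measure.restrict_restrict measurableSet_Ici,
      setLIntegral_const]
    have h2 : Ici (g x ^ k) ∩ Icc (0 : ℝ) 1 = Icc (g x ^ k) 1 := by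
      ext r
      simp only [mem_inter_iff, mem_Ici, mem_Icc]
      constructor
      · rintro ⟨a, b, c⟩; exact ⟨a, c⟩
      · rintro ⟨a, c⟩; exact ⟨a, hx0.trans a, c⟩
    rw [h2, Real.volume_Icc, mul_comm]
  have hswap := lintegral_lintegral_swap (μ := (volume : Measure E).restrict P)
    (ν := (volume : Measure ℝ).restrict (Icc 0 1)) (f := fun x s => F (x, s)) hF.aemeasurable
  rw [setLIntegral_congr_fun hPm e1] at hswap
  have e2 : ∀ r ∈ Icc (0 : ℝ) 1, r ≠ 0 → ∫⁻ x in P, F (x, r)
      = ENNReal.ofReal (r ^ ((d : ℝ) / k)) * ∫⁻ x in P, Φ x := by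
    intro r hr hr0
    have hrpos : 0 < r := lt_of_le_of_ne hr.1 (Ne.symm hr0)
    have hs1 : 0 < r ^ (1 / k) := Real.rpow_pos_of_pos hrpos _
    have hsle : r ^ (1 / k) ≤ 1 := Real.rpow_le_one hr.1 hr.2 (by positivity)
    have hset : ∀ x : E, g x ^ k ≤ r ↔ g x ≤ r ^ (1 / k) := by
      intro x
      rw [one_div, Real.le_rpow_inv_iff_of_pos (apply_nonneg g x) hrpos.le hk]
    have hms : MeasurableSet {x : E | g x ≤ r ^ (1 / k)} :=
      (isClosed_le hg continuous_const).measurableSet
    have h1 : (fun x => F (x, r)) = {x : E | g x ≤ r ^ (1 / k)}.indicator Φ := by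
      funext x
      show A.indicator _ (x, r) = _
      by_cases h : g x ^ k ≤ r
      · rw [indicator_of_mem (show (x, r) ∈ A from h),
          indicator_of_mem (show x ∈ {x : E | g x ≤ r ^ (1 / k)} from (hset x).1 h)]
      · rw [indicator_of_notMem (show (x, r) ∉ A from h),
          indicator_of_notMem (show x ∉ {x : E | g x ≤ r ^ (1 / k)} from fun h' => h ((hset x).2 h'))]
    rw [h1, lintegral_indicator hms, Measure.restrict_restrict hms]
    have h2 : {x : E | g x ≤ r ^ (1 / k)} ∩ P = {x : E | g x ≤ r ^ (1 / k)} := by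
      apply inter_eq_left.2
      intro x hx
      exact le_trans (show g x ≤ r ^ (1 / k) from hx) hsle
    rw [h2, lint_ball g hg Φ hΦ 0 (fun s hs x => by
      rw [h0 s hs, Real.rpow_zero, ENNReal.ofReal_one, one_mul]) _ hs1, ← Real.rpow_mul hr.1]
    congr 3
    rw [← hd]
    ring
  have e3 : ∫⁻ r in Icc (0 : ℝ) 1, (∫⁻ x in P, F (x, r))
      = ENNReal.ofReal (k / ((d : ℝ) + k)) * ∫⁻ x in P, Φ x := by
    have hne : ∀ᵐ s : ℝ, s ≠ 0 := by
      have := (measure_singleton (μ := (volume : Measure ℝ)) (0 : ℝ))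
      exact compl_mem_ae_iff.mpr this
    have h1 : ∫⁻ r in Icc (0 : ℝ) 1, (∫⁻ x in P, F (x, r))
        = ∫⁻ r in Icc (0 : ℝ) 1, ENNReal.ofReal (r ^ ((d : ℝ) / k)) * ∫⁻ x in P, Φ x := by
      refine lintegral_congr_ae ?_
      filter_upwards [ae_restrict_of_ae hne, ae_restrict_mem measurableSet_Icc] with r hr hr'
      exact e2 r hr' hr
    rw [h1, lintegral_mul_const _ (by fun_prop)]
    congr 1
    have hdk : 0 ≤ (d : ℝ) / k := by positivity
    have h2 : IntegrableOn (fun r : ℝ => r ^ ((d : ℝ) / k)) (Icc 0 1) := by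
      apply ContinuousOn.integrableOn_Icc
      exact (continuous_id.rpow_const fun x => Or.inr hdk).continuousOn
    rw [← ofReal_integral_eq_lintegral_ofReal h2]
    · congr 1
      rw [integral_Icc_eq_integral_Ioc, ← intervalIntegral.integral_of_le zero_le_one,
        integral_rpow (Or.inl (by linarith)), Real.one_rpow, Real.zero_rpow (by positivity)]
      field_simp
      ring
    · filter_upwards [ae_restrict_mem measurableSet_Icc] with r hr
      exact Real.rpow_nonneg hr.1 _
  rw [e3] at hswap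
  have hmm : Measurable fun x => ENNReal.ofReal (g x ^ k) * Φ x :=
    (hgk.measurable.ennreal_ofReal).mul hΦ
  rw [← hswap, ← lintegral_add_left hmm]
  refine setLIntegral_congr_fun hPm fun x hx => ?_
  have hx1 : g x ^ k ≤ 1 := Real.rpow_le_one (apply_nonneg g x) hx hk.le
  have hx0 : 0 ≤ g x ^ k := Real.rpow_nonneg (apply_nonneg g x) _
  show ENNReal.ofReal (g x ^ k) * Φ x + ENNReal.ofReal (1 - g x ^ k) * Φ x = Φ x
  rw [← add_mul, ← ENNReal.ofReal_add hx0 (by linarith)]
  simp

theorem df_smul (g : Seminorm ℝ E) (s : ℝ) (hs : 0 < s) (x : E) :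
    fderiv ℝ g (s • x) = fderiv ℝ g x := by
  have h1 : fderiv ℝ (fun y => g (s • y)) x = s • fderiv ℝ g (s • x) := fderiv_comp_smul s
  have h2 : (fun y => g (s • y)) = fun y => s • g y := by
    funext y
    rw [map_smul_eq_mul, Real.norm_of_nonneg hs.le, smul_eq_mul]
  letI : Invertible s := invertibleOfNonzero hs.ne'
  have h3 : fderiv ℝ (fun y => s • g y) x = s • fderiv ℝ g x :=
    fderiv_const_smul_of_invertible (f := g) s
  rw [h2, h3] at h1
  exact (smul_right_injective _ hs.ne' h1).symm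

theorem df_meas (g : E → ℝ) : Measurable fun q : E × E => fderiv ℝ g q.1 q.2 := by
  let b := stdOrthonormalBasis ℝ E
  have e : (fun q : E × E => fderiv ℝ g q.1 q.2)
      = fun q => ∑ i, inner ℝ (b i) q.2 * fderiv ℝ g q.1 (b i) := by
    funext q
    conv_lhs => rw [← b.sum_repr' q.2]
    rw [map_sum]
    refine Finset.sum_congr rfl fun i _ => ?_
    rw [map_smul, smul_eq_mul]
  rw [e]
  refine Finset.measurable_sum _ fun i _ => ?_
  refine Measurable.mul ?_ ?_
  · exact (continuous_const.inner continuous_snd).measurable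
  · exact (measurable_fderiv_apply_const ℝ g (b i)).comp measurable_fst

/-- the derivative is bounded -/
theorem df_bound (g : Seminorm ℝ E) : ∃ C : ℝ, 0 ≤ C ∧ ∀ x v, |fderiv ℝ g x v| ≤ C * ‖v‖ := by
  obtain ⟨C, hC0, hC⟩ := semi_bound g
  have hL : LipschitzWith ⟨C, hC0.le⟩ g := by
    refine LipschitzWith.of_dist_le_mul fun x y => ?_
    rw [Real.dist_eq, dist_eq_norm]
    exact (abs_sub_map_le_sub g x y).trans (hC _)
  refine ⟨C, hC0.le, fun x v => ?_⟩
  rw [← Real.norm_eq_abs]
  exact ((fderiv ℝ g x).le_opNorm v).trans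
    (mul_le_mul_of_nonneg_right (norm_fderiv_le_of_lipschitz ℝ hL) (norm_nonneg _))

end Pool.Agent.TH591.Sq
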