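import Mathlib
import Pool.Agent.TH591.Sq.Radial

set_option autoImplicit false
set_option linter.unusedSectionVars false

/-!
# The mean square of the derivative of the norm
-/

namespace Pool.Agent.TH591.Sq

open MeasureTheory Set Filter
open scoped ENNReal NNReal Topology

variable {E : Type*} [NormedAddCommGroup E] [InnerProductSpace ℝ E] [FiniteDimensional ℝ E]
  [MeasurableSpace E] [BorelSpace E]

/-- the derivative of the power of the norm -/
noncomputable def dq (q : ℝ) (g : E → ℝ) (x v : E) : ℝ := q * g x ^ (q - 1) * fderiv ℝ g x v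

/-- the pointwise limit -/
theorem point_lim (q : ℝ) (hq : 1 ≤ q) (g : Seminorm ℝ E) (t : ℝ) (ht : 0 < t) (v x : E) :
    ex q g v * (ex q g x * ENNReal.ofReal (t ^ 2 * (dq q g x v) ^ 2))
      ≤ liminf (fun n : ℕ => ex q g v * (ex q g x * ENNReal.ofReal (((n + 1 : ℕ) : ℝ) ^ 2 *
        ((g (x + (t / (n + 1 : ℕ)) • v) ^ q - g x ^ q) ^ 2 *
          Real.exp (-|g (x + (t / (n + 1 : ℕ)) • v) ^ q - g x ^ q|))))) atTop := by
  have hg := semi_cont g
  have hgq := powcont q hq g hg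
  by_cases hd : DifferentiableAt ℝ g x
  · have h1 : Tendsto (fun n : ℕ => ((n + 1 : ℕ) : ℝ) / t) atTop atTop := by
      apply Tendsto.atTop_div_const ht
      exact tendsto_natCast_atTop_atTop.comp (tendsto_add_atTop_nat 1)
    have hD : HasFDerivAt (fun z => g z ^ q) ((q * g x ^ (q - 1)) • fderiv ℝ g x) x :=
      hd.hasFDerivAt.rpow_const (Or.inr hq)
    have h2 := hD.lim v (c := fun n : ℕ => ((n + 1 : ℕ) : ℝ) / t) (l := atTop)
      (tendsto_norm_atTop_atTop.comp h1)
    have h3 : Tendsto (fun n : ℕ => ((n + 1 : ℕ) : ℝ) *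
        (g (x + (t / (n + 1 : ℕ)) • v) ^ q - g x ^ q))
        atTop (𝓝 (t * dq q g x v)) := by
      have h4 := h2.const_mul t
      refine (h4.congr fun n => ?_)
      rw [inv_div, smul_eq_mul]
      field_simp
    have h5 : Tendsto (fun n : ℕ => g (x + (t / (n + 1 : ℕ)) • v) ^ q - g x ^ q)
        atTop (𝓝 0) := by
      have h6 : Tendsto (fun n : ℕ => t / ((n + 1 : ℕ) : ℝ)) atTop (𝓝 0) :=
        tendsto_const_nhds.div_atTop (tendsto_natCast_atTop_atTop.comp (tendsto_add_atTop_nat 1))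
      have h7 : Tendsto (fun n : ℕ => x + (t / (n + 1 : ℕ)) • v) atTop (𝓝 (x + (0 : ℝ) • v)) :=
        tendsto_const_nhds.add (h6.smul_const v)
      rw [zero_smul, add_zero] at h7
      have h8 := ((hgq.tendsto x).comp h7).sub_const (g x ^ q)
      rw [sub_self] at h8
      exact h8
    have h6 : Tendsto (fun n : ℕ => ((n + 1 : ℕ) : ℝ) ^ 2 *
        ((g (x + (t / (n + 1 : ℕ)) • v) ^ q - g x ^ q) ^ 2 *
          Real.exp (-|g (x + (t / (n + 1 : ℕ)) • v) ^ q - g x ^ q|))) atTop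
        (𝓝 (t ^ 2 * (dq q g x v) ^ 2)) := by
      have h7 := (h3.pow 2).mul ((Real.continuous_exp.tendsto _).comp (h5.abs.neg))
      rw [abs_zero, neg_zero, Real.exp_zero, mul_one, mul_pow] at h7
      refine h7.congr fun n => ?_
      simp only [Function.comp]
      ring
    have h7 := ENNReal.Tendsto.const_mul (a := ex q g v) (ENNReal.Tendsto.const_mul
      (a := ex q g x) (ENNReal.tendsto_ofReal h6) (Or.inr ENNReal.ofReal_ne_top))
      (Or.inr ENNReal.ofReal_ne_top)
    rw [h7.liminf_eq]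
  · unfold dq
    rw [fderiv_zero_of_not_differentiableAt hd]
    simp

variable {Ω : Type*} [MeasurableSpace Ω] {μ : Measure Ω} [SFinite μ] {q : ℝ}
  {g : Seminorm ℝ E} {h : Ω → Seminorm ℝ E}

/-- Fatou's lemma. -/
theorem IsInt.fatou (hq : 1 ≤ q) (H : IsInt μ q g h) (c : ℝ) (hc : 0 < c)
    (hcp : ∀ x, c * ‖x‖ ≤ g x) (W : Ω → Submodule ℝ E) (hW : ∀ ω, ∀ w ∈ W ω, h ω w = 0) (n : ℕ)
    (hn : ∀ ω, Module.finrank ℝ E ≤ Module.finrank ℝ (W ω) + n)
    (t : ℝ) (ht0 : 0 < t) (ht : t < 1) :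
    ∫⁻ z : E × E, ex q g z.1 * (ex q g z.2 * ENNReal.ofReal (t ^ 2 * (dq q g z.2 z.1) ^ 2))
        ∂((volume : Measure E).prod volume)
      ≤ ENNReal.ofReal (2 * (K1 q t + t) / ((1 - t) ^ (2 * ((n : ℝ) + q)))) *
        ((∫⁻ x, ex q g x) * (ENNReal.ofReal ((Module.finrank ℝ E : ℝ) / q + 1) *
          ∫⁻ x, ex q g x)) := by
  have hg := semi_cont g
  have hgq := powcont q hq g hg
  have hem := ex_meas q hq g hg
  have hK := K1_nonneg hq t ht0.le ht
  set f : ℕ → E × E → ℝ≥0∞ := fun N z => ex q g z.1 * (ex q g z.2 * ENNReal.ofReal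
    (((N + 1 : ℕ) : ℝ) ^ 2 * ((g (z.2 + (t / (N + 1 : ℕ)) • z.1) ^ q - g z.2 ^ q) ^ 2 *
          Real.exp (-|g (z.2 + (t / (N + 1 : ℕ)) • z.1) ^ q - g z.2 ^ q|)))) with hf
  have hfm : ∀ N, Measurable (f N) := by
    intro N
    have h0 : Continuous fun z : E × E => g (z.2 + (t / (N + 1 : ℕ)) • z.1) ^ q :=
      hgq.comp (continuous_snd.add (continuous_fst.const_smul _))
    have h0' : Continuous fun z : E × E => g z.2 ^ q := hgq.comp continuous_snd
    have h1 : Continuous fun z : E × E => (((N + 1 : ℕ) : ℝ) ^ 2 *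
        ((g (z.2 + (t / (N + 1 : ℕ)) • z.1) ^ q - g z.2 ^ q) ^ 2 *
          Real.exp (-|g (z.2 + (t / (N + 1 : ℕ)) • z.1) ^ q - g z.2 ^ q|))) :=
      continuous_const.mul (((h0.sub h0').pow 2).mul
        (Real.continuous_exp.comp ((h0.sub h0').abs.neg)))
    exact (hem.comp measurable_fst).mul ((hem.comp measurable_snd).mul
      h1.measurable.ennreal_ofReal)
  have hb : ∀ N, ∫⁻ z, f N z ∂((volume : Measure E).prod volume)
      ≤ ENNReal.ofReal (2 * (K1 q t + t) / ((1 - t) ^ (2 * ((n : ℝ) + q)))) *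
        ((∫⁻ x, ex q g x) * (ENNReal.ofReal ((Module.finrank ℝ E : ℝ) / q + 1) *
          ∫⁻ x, ex q g x)) := by
    intro N
    rw [lintegral_prod _ (hfm N).aemeasurable]
    have hN' : (0 : ℝ) < (N + 1 : ℕ) := by exact_mod_cast N.succ_pos
    have h1t : 0 < 1 - t := by linarith
    calc ∫⁻ v, ∫⁻ x, f N (v, x)
        ≤ ∫⁻ v, ENNReal.ofReal (((N + 1 : ℕ) : ℝ) ^ 2) *
            (ex q g v * ∫⁻ x, ex q g x *
              ENNReal.ofReal (sd (fun z => g z ^ q) x ((t / (N + 1 : ℕ)) • v))) := by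
          refine lintegral_mono fun v => ?_
          have e : ∀ x, f N (v, x) = (ENNReal.ofReal (((N + 1 : ℕ) : ℝ) ^ 2) * ex q g v) *
              (ex q g x * ENNReal.ofReal ((g (x + (t / (N + 1 : ℕ)) • v) ^ q - g x ^ q) ^ 2 *
                Real.exp (-|g (x + (t / (N + 1 : ℕ)) • v) ^ q - g x ^ q|))) := by
            intro x
            show ex q g v * (ex q g x * ENNReal.ofReal (_ * _)) = _
            rw [ENNReal.ofReal_mul (by positivity)]
            ring
          simp only [e]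
          have hne : ENNReal.ofReal (((N + 1 : ℕ) : ℝ) ^ 2) * ex q g v ≠ ⊤ :=
            ENNReal.mul_ne_top ENNReal.ofReal_ne_top ENNReal.ofReal_ne_top
          rw [lintegral_const_mul' _ _ hne, mul_assoc]
          exact mul_le_mul' le_rfl (mul_le_mul' le_rfl (translate hq g c hc hcp _))
      _ = ENNReal.ofReal (((N + 1 : ℕ) : ℝ) ^ 2) * ∫⁻ v,
            (ex q g v * ∫⁻ x, ex q g x *
              ENNReal.ofReal (sd (fun z => g z ^ q) x ((t / (N + 1 : ℕ)) • v))) :=
          lintegral_const_mul' _ _ ENNReal.ofReal_ne_top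
      _ ≤ ENNReal.ofReal (((N + 1 : ℕ) : ℝ) ^ 2) *
            (ENNReal.ofReal (2 * (K1 q t + t) / (((N + 1 : ℕ) : ℝ) ^ 2 *
              (1 - t) ^ (2 * ((n : ℝ) + q)))) *
        ((∫⁻ x, ex q g x) * (ENNReal.ofReal ((Module.finrank ℝ E : ℝ) / q + 1) *
          ∫⁻ x, ex q g x))) := by
          gcongr
          exact H.avg_sd hq c hc hcp W hW n hn t ht0 ht (N + 1) N.succ_pos
      _ = _ := by
          rw [← mul_assoc, ← ENNReal.ofReal_mul (by positivity)]
          congr 2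
          have hA : 0 < (1 - t) ^ (2 * ((n : ℝ) + q)) := by positivity
          generalize (1 - t) ^ (2 * ((n : ℝ) + q)) = A at hA
          field_simp
  calc ∫⁻ z : E × E, ex q g z.1 * (ex q g z.2 * ENNReal.ofReal (t ^ 2 * (dq q g z.2 z.1) ^ 2))
        ∂((volume : Measure E).prod volume)
      ≤ ∫⁻ z : E × E, liminf (fun N => f N z) atTop ∂((volume : Measure E).prod volume) :=
        lintegral_mono fun z => point_lim q hq g t ht0 z.1 z.2
    _ ≤ liminf (fun N => ∫⁻ z, f N z ∂((volume : Measure E).prod volume)) atTop :=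
        lintegral_liminf_le hfm
    _ ≤ liminf (fun _ : ℕ => ENNReal.ofReal
          (2 * (K1 q t + t) / ((1 - t) ^ (2 * ((n : ℝ) + q)))) *
        ((∫⁻ x, ex q g x) * (ENNReal.ofReal ((Module.finrank ℝ E : ℝ) / q + 1) *
          ∫⁻ x, ex q g x))) atTop :=
        liminf_le_liminf (Eventually.of_forall hb)
    _ = _ := by rw [liminf_const]

end Pool.Agent.TH591.Sq
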