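import Mathlib
import Pool.Agent.TH591.Sq.Main2

set_option autoImplicit false
set_option linter.unusedSectionVars false

/-!
# The mean square of the derivative of the norm over the unit ball
-/

namespace Pool.Agent.TH591.Sq

open MeasureTheory Set Filter
open scoped ENNReal NNReal Topology

theorem gamma_prod (d q : ℝ) (hd : 0 ≤ d) (hq : 1 ≤ q) :
    Real.Gamma (d / q + 2) ^ 2
      ≤ Real.Gamma ((d + 2) / q + 1) * Real.Gamma ((d + 2 * (q - 1)) / q + 1) := by
  have hq0 : 0 < q := by linarith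
  have hk : 0 ≤ 2 * (q - 1) := by linarith
  have hs : 0 < (d + 2) / q + 1 := by positivity
  have ht : 0 < (d + 2 * (q - 1)) / q + 1 := by positivity
  have h := Real.Gamma_mul_add_mul_le_rpow_Gamma_mul_rpow_Gamma hs ht (a := 1 / 2) (b := 1 / 2)
    (by norm_num) (by norm_num) (by norm_num)
  have e : 1 / 2 * ((d + 2) / q + 1) + 1 / 2 * ((d + 2 * (q - 1)) / q + 1) = d / q + 2 := by
    field_simp
    ring
  rw [e] at h
  have h0 : 0 < Real.Gamma (d / q + 2) := Real.Gamma_pos_of_pos (by positivity)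
  have h1 : 0 < Real.Gamma ((d + 2) / q + 1) := Real.Gamma_pos_of_pos hs
  have h2 : 0 < Real.Gamma ((d + 2 * (q - 1)) / q + 1) := Real.Gamma_pos_of_pos ht
  calc Real.Gamma (d / q + 2) ^ 2
      ≤ (Real.Gamma ((d + 2) / q + 1) ^ (1 / 2 : ℝ) *
        Real.Gamma ((d + 2 * (q - 1)) / q + 1) ^ (1 / 2 : ℝ)) ^ 2 := by gcongr
    _ = _ := by
        rw [mul_pow, ← Real.rpow_mul_natCast h1.le, ← Real.rpow_mul_natCast h2.le]
        norm_num

theorem log_low (m : ℝ) (hm : 0 < m) : -(1 / m) ≤ Real.log (1 - 1 / (m + 1)) := by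
  have h1 : 1 - 1 / (m + 1) = (m⁻¹ + 1)⁻¹ := by
    field_simp
    ring
  rw [h1, Real.log_inv, neg_le_neg_iff]
  have h2 := Real.log_le_sub_one_of_pos (show 0 < m⁻¹ + 1 by positivity)
  refine h2.trans (le_of_eq ?_)
  rw [one_div]
  ring

theorem K1_le (n q : ℝ) (hn : 0 ≤ n) (hq : 1 ≤ q) :
    K1 q (1 / (n + q + 1)) + 1 / (n + q + 1) ≤ 4 * q * (1 / (n + q + 1)) := by
  have hm : 0 < n + q := by linarith
  have h1t : 0 < 1 - 1 / (n + q + 1) := by
    rw [sub_pos, div_lt_one (by linarith)]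
    linarith
  have hl := log_low (n + q) hm
  set y : ℝ := (q - 1) / (n + q) with hy
  have hy0 : 0 ≤ y := div_nonneg (by linarith) hm.le
  have hy1 : y ≤ 1 := by rw [hy, div_le_one hm]; linarith
  have h1 : (1 - 1 / (n + q + 1)) ^ (1 - q) ≤ Real.exp y := by
    rw [Real.rpow_def_of_pos h1t]
    apply Real.exp_le_exp.2
    have h2 : (q - 1) * -(1 / (n + q)) ≤ (q - 1) * Real.log (1 - 1 / (n + q + 1)) :=
      mul_le_mul_of_nonneg_left hl (by linarith)
    have h3 : (q - 1) * -(1 / (n + q)) = -y := by rw [hy]; ring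
    rw [h3] at h2
    linarith
  have h2 : Real.exp y ≤ 1 + 2 * y := by
    have h3 := Real.abs_exp_sub_one_sub_id_le (x := y) (by rw [abs_of_nonneg hy0]; exact hy1)
    have h4 := (abs_le.1 h3).2
    nlinarith
  have h3 : y ≤ 2 * (q - 1) * (1 / (n + q + 1)) := by
    rw [hy, mul_one_div, div_le_div_iff₀ hm (by linarith)]
    nlinarith
  unfold K1
  have h4 : 0 < 1 / (n + q + 1) := by positivity
  nlinarith

theorem pow_low (n q : ℝ) (hn : 0 ≤ n) (hq : 1 ≤ q) :
    1 ≤ 15 / 2 * (1 - 1 / (n + q + 1)) ^ (2 * (n + q)) := by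
  have hm : 0 < n + q := by linarith
  have h1t : 0 < 1 - 1 / (n + q + 1) := by
    rw [sub_pos, div_lt_one (by linarith)]
    linarith
  have hl := log_low (n + q) hm
  have h1 : Real.exp (-2) ≤ (1 - 1 / (n + q + 1)) ^ (2 * (n + q)) := by
    rw [Real.rpow_def_of_pos h1t]
    apply Real.exp_le_exp.2
    have h2 : -(1 / (n + q)) * (2 * (n + q)) ≤ Real.log (1 - 1 / (n + q + 1)) * (2 * (n + q)) :=
      mul_le_mul_of_nonneg_right hl (by linarith)
    have h3 : -(1 / (n + q)) * (2 * (n + q)) = -2 := by field_simp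
    linarith
  have h2 : 1 ≤ 15 / 2 * Real.exp (-2) := by
    rw [Real.exp_neg, ← div_eq_mul_inv, le_div_iff₀ (Real.exp_pos _), one_mul]
    have h4 := Real.exp_one_lt_d9
    have h5 : Real.exp 2 = Real.exp 1 * Real.exp 1 := by
      rw [← Real.exp_add]; norm_num
    rw [h5]
    have h6 := Real.exp_pos 1
    nlinarith
  linarith

variable {E : Type*} [NormedAddCommGroup E] [InnerProductSpace ℝ E] [FiniteDimensional ℝ E]
  [MeasurableSpace E] [BorelSpace E]

variable {Ω : Type*} [MeasurableSpace Ω] {μ : Measure Ω} [SFinite μ] {q : ℝ}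
  {g : Seminorm ℝ E} {h : Ω → Seminorm ℝ E}

/-- The mean square of the derivative over the unit ball. -/
theorem IsInt.mean_sq (hq : 1 ≤ q) (H : IsInt μ q g h) (c : ℝ) (hc : 0 < c)
    (hcp : ∀ x, c * ‖x‖ ≤ g x) (W : Ω → Submodule ℝ E) (hW : ∀ ω, ∀ w ∈ W ω, h ω w = 0) (n : ℕ)
    (hn : ∀ ω, Module.finrank ℝ E ≤ Module.finrank ℝ (W ω) + n)
    (hd1 : 0 < Module.finrank ℝ E) :
    ∫⁻ x in {x : E | g x ≤ 1}, ∫⁻ v in {x : E | g x ≤ 1},
        ENNReal.ofReal ((fderiv ℝ g x v) ^ 2)
      ≤ ENNReal.ofReal (121 * (n + q + 1) / Module.finrank ℝ E) *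
        (volume {x : E | g x ≤ 1}) ^ 2 := by
  have hg := semi_cont g
  have hq0 : 0 < q := by linarith
  set d := Module.finrank ℝ E with hd
  have hd0 : (0 : ℝ) < d := by exact_mod_cast hd1
  set P : Set E := {x : E | g x ≤ 1} with hP
  set V := volume P with hV
  have hVf : V ≠ ⊤ := (vol_le_one g c hc hcp).ne
  have hPm : MeasurableSet P := (isClosed_le hg continuous_const).measurableSet
  set D : E × E → ℝ≥0∞ := fun z => ENNReal.ofReal ((fderiv ℝ g z.1 z.2) ^ 2) with hD
  have hDm : Measurable D := ((df_meas g).pow_const 2).ennreal_ofReal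
  have hem := ex_meas q hq g hg
  set Φ : E → ℝ≥0∞ := fun x => ∫⁻ v in P, D (x, v) with hΦ
  have hΦm : Measurable Φ := hDm.lintegral_prod_right'
  have hΦ0 : ∀ s : ℝ, 0 < s → ∀ x, Φ (s • x) = Φ x := by
    intro s hs x
    simp only [hΦ, hD, df_smul g s hs x]
  set I := ∫⁻ x in P, Φ x with hI
  set k : ℝ := 2 * (q - 1) with hk
  have hk0 : 0 ≤ k := by rw [hk]; linarith
  -- `I` is finite
  have hIf : I ≠ ⊤ := by
    obtain ⟨C, hC0, hC⟩ := df_bound g
    have h1 : ∀ x, ∀ v ∈ P, D (x, v) ≤ ENNReal.ofReal ((C * (1 / c)) ^ 2) := by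
      intro x v hv
      apply ENNReal.ofReal_le_ofReal
      rw [← sq_abs (fderiv ℝ g x v)]
      have h2 : ‖v‖ ≤ 1 / c := by
        rw [le_div_iff₀ hc, mul_comm]
        exact (hcp v).trans hv
      exact pow_le_pow_left₀ (abs_nonneg _)
        ((hC x v).trans (mul_le_mul_of_nonneg_left h2 hC0)) 2
    have h2 : ∀ x, Φ x ≤ ENNReal.ofReal ((C * (1 / c)) ^ 2) * V := by
      intro x
      calc Φ x ≤ ∫⁻ v in P, ENNReal.ofReal ((C * (1 / c)) ^ 2) :=
            setLIntegral_mono measurable_const fun v hv => h1 x v hv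
        _ = _ := setLIntegral_const _ _
    have h3 : I ≤ (ENNReal.ofReal ((C * (1 / c)) ^ 2) * V) * V := by
      calc I ≤ ∫⁻ x in P, ENNReal.ofReal ((C * (1 / c)) ^ 2) * V :=
            lintegral_mono fun x => h2 x
        _ = _ := setLIntegral_const _ _
    exact ne_top_of_le_ne_top
      (ENNReal.mul_ne_top (ENNReal.mul_ne_top ENNReal.ofReal_ne_top hVf) hVf) h3
  have hZ := ex_eq q hq g hg
  rw [← hP, ← hV, ← hd] at hZ
  -- the integral over the direction
  have hv : ∀ x, ∫⁻ v, ex q g v * D (x, v)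
      = ENNReal.ofReal (Real.Gamma (((d : ℝ) + 2) / q + 1)) * Φ x := by
    intro x
    have h1 := layer q hq0 g hg (fun v => D (x, v)) (hDm.comp measurable_prodMk_left) 2
      (by norm_num) (fun s hs v => by
      show ENNReal.ofReal ((fderiv ℝ g x (s • v)) ^ 2) = _ * ENNReal.ofReal ((fderiv ℝ g x v) ^ 2)
      rw [map_smul, smul_eq_mul, mul_pow, ENNReal.ofReal_mul (by positivity)]
      norm_num)
    rw [← hd] at h1
    rw [hΦ, ← h1]
    exact lintegral_congr fun v => mul_comm _ _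
  -- the integral over the point
  set J := ∫⁻ x in P, ENNReal.ofReal (g x ^ k) * Φ x with hJ
  have hx : ∫⁻ x, ex q g x * (ENNReal.ofReal (g x ^ k) * Φ x)
      = ENNReal.ofReal (Real.Gamma (((d : ℝ) + k) / q + 1)) * J := by
    have hgk : Continuous fun x => g x ^ k := hg.rpow_const fun x => Or.inr hk0
    have h1 := layer q hq0 g hg (fun x => ENNReal.ofReal (g x ^ k) * Φ x)
      (hgk.measurable.ennreal_ofReal.mul hΦm) k hk0 (fun s hs x => by
        rw [hΦ0 s hs x, qh_hom k g s x hs, ENNReal.ofReal_mul (by positivity), mul_assoc])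
    rw [← hd, ← hJ] at h1
    rw [← h1]
    exact lintegral_congr fun v => mul_comm _ _
  have hJI : J = ENNReal.ofReal ((d : ℝ) / (d + k)) * I := by
    rcases eq_or_lt_of_le hk0 with hk1 | hk1
    · rw [← hk1, add_zero, div_self hd0.ne', ENNReal.ofReal_one, one_mul, hJ, ← hk1]
      simp
      rfl
    · have h1 := radial g Φ hΦm hΦ0 k hk1
      rw [← hP, ← hJ, ← hI, ← hd] at h1
      have h2 : I = ENNReal.ofReal ((d : ℝ) / (d + k)) * I + ENNReal.ofReal (k / (d + k)) * I := by
        rw [← add_mul, ← ENNReal.ofReal_add (by positivity) (by positivity), ← add_div,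
          div_self (by positivity), ENNReal.ofReal_one, one_mul]
      rw [h2] at h1
      have h3 : ENNReal.ofReal (k / (d + k)) * I ≠ ⊤ :=
        ENNReal.mul_ne_top ENNReal.ofReal_ne_top hIf
      rw [← h2] at h1
      have h4 : J + ENNReal.ofReal (k / (d + k)) * I
          = ENNReal.ofReal ((d : ℝ) / (d + k)) * I + ENNReal.ofReal (k / (d + k)) * I := by
        rw [← h2]; exact h1
      exact (ENNReal.add_left_inj h3).1 h4
  -- put it together
  have hn0 : (0 : ℝ) ≤ n := by positivity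
  set t : ℝ := 1 / (n + q + 1) with ht
  have ht0 : 0 < t := by positivity
  have ht1 : t < 1 := by
    rw [ht, div_lt_one (by positivity)]
    linarith
  have h1t : 0 < 1 - t := by linarith
  have hK := K1_nonneg hq t ht0.le ht1
  have hF := H.fatou hq c hc hcp W hW n hn t ht0 ht1
  have e1 : ∫⁻ z : E × E, ex q g z.1 *
        (ex q g z.2 * ENNReal.ofReal (t ^ 2 * (dq q g z.2 z.1) ^ 2))
        ∂((volume : Measure E).prod volume)
      = ENNReal.ofReal (t ^ 2 * q ^ 2) *
        (ENNReal.ofReal (Real.Gamma (((d : ℝ) + 2) / q + 1)) *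
        (ENNReal.ofReal (Real.Gamma (((d : ℝ) + k) / q + 1)) * J)) := by
    have hdqm : Measurable fun z : E × E => dq q g z.2 z.1 := by
      unfold dq
      have hgk : Continuous fun x => g x ^ (q - 1) :=
        hg.rpow_const fun x => Or.inr (by linarith)
      exact ((hgk.measurable.comp measurable_snd).const_mul q).mul
        ((df_meas g).comp measurable_swap)
    have hm : Measurable fun z : E × E =>
        ex q g z.1 * (ex q g z.2 * ENNReal.ofReal (t ^ 2 * (dq q g z.2 z.1) ^ 2)) := by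
      refine (hem.comp measurable_fst).mul ((hem.comp measurable_snd).mul ?_)
      exact ((hdqm.pow_const 2).const_mul _).ennreal_ofReal
    rw [lintegral_prod_symm' _ hm]
    calc ∫⁻ x, ∫⁻ v, ex q g v * (ex q g x * ENNReal.ofReal (t ^ 2 * (dq q g x v) ^ 2))
        = ∫⁻ x, ENNReal.ofReal (t ^ 2 * q ^ 2) *
            (ENNReal.ofReal (Real.Gamma (((d : ℝ) + 2) / q + 1)) *
            (ex q g x * (ENNReal.ofReal (g x ^ k) * Φ x))) := by
          refine lintegral_congr fun x => ?_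
          have e2 : ∀ v, ex q g v * (ex q g x * ENNReal.ofReal (t ^ 2 * (dq q g x v) ^ 2))
              = (ENNReal.ofReal (t ^ 2 * q ^ 2) * (ex q g x * ENNReal.ofReal (g x ^ k))) *
                (ex q g v * D (x, v)) := by
            intro v
            have e3 : t ^ 2 * (dq q g x v) ^ 2
                = t ^ 2 * q ^ 2 * (g x ^ k * (fderiv ℝ g x v) ^ 2) := by
              unfold dq
              have e4 : g x ^ k = (g x ^ (q - 1)) ^ 2 := by
                rw [← Real.rpow_mul_natCast (apply_nonneg g x), hk]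
                congr 1
                push_cast
                ring
              rw [e4]
              ring
            rw [e3, ENNReal.ofReal_mul (by positivity),
              ENNReal.ofReal_mul (Real.rpow_nonneg (apply_nonneg g x) _)]
            show _ = _ * (_ * ENNReal.ofReal ((fderiv ℝ g x v) ^ 2))
            ring
          simp only [e2]
          have hne : ENNReal.ofReal (t ^ 2 * q ^ 2) * (ex q g x * ENNReal.ofReal (g x ^ k)) ≠ ⊤ :=
            ENNReal.mul_ne_top ENNReal.ofReal_ne_top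
              (ENNReal.mul_ne_top ENNReal.ofReal_ne_top ENNReal.ofReal_ne_top)
          rw [lintegral_const_mul' _ _ hne, hv]
          ring
      _ = _ := by
          rw [lintegral_const_mul' _ _ ENNReal.ofReal_ne_top,
            lintegral_const_mul' _ _ ENNReal.ofReal_ne_top, hx]
  rw [e1, hZ, hJI, ← hd] at hF
  -- numerical part
  set G0 : ℝ := Real.Gamma ((d : ℝ) / q + 1) with hG0
  set G2 : ℝ := Real.Gamma (((d : ℝ) + 2) / q + 1) with hG2
  set Gk : ℝ := Real.Gamma (((d : ℝ) + k) / q + 1) with hGk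
  have hG0p : 0 < G0 := Real.Gamma_pos_of_pos (by positivity)
  have hG2p : 0 < G2 := Real.Gamma_pos_of_pos (by positivity)
  have hGkp : 0 < Gk := Real.Gamma_pos_of_pos (by positivity)
  have hgam : ((d : ℝ) / q + 1) ^ 2 * G0 ^ 2 ≤ G2 * Gk := by
    have h1 := gamma_prod d q hd0.le hq
    have h2 : Real.Gamma ((d : ℝ) / q + 2) = ((d : ℝ) / q + 1) * G0 := by
      rw [hG0, ← Real.Gamma_add_one (by positivity)]
      congr 1
      ring
    rw [h2, mul_pow] at h1
    exact h1
  set A : ℝ := t ^ 2 * q ^ 2 * (G2 * (Gk * (d / (d + k)))) with hAdef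
  have hA0 : 0 < A := by rw [hAdef]; positivity
  have hAe : ENNReal.ofReal (t ^ 2 * q ^ 2) * (ENNReal.ofReal G2 * (ENNReal.ofReal Gk *
      (ENNReal.ofReal ((d : ℝ) / (d + k)) * I))) = ENNReal.ofReal A * I := by
    rw [hAdef, ENNReal.ofReal_mul (show 0 ≤ t ^ 2 * q ^ 2 by positivity),
      ENNReal.ofReal_mul hG2p.le, ENNReal.ofReal_mul hGkp.le]
    ring
  have hBe : ENNReal.ofReal (2 * (K1 q t + t) / ((1 - t) ^ (2 * ((n : ℝ) + q)))) *
        ((ENNReal.ofReal G0 * V) * (ENNReal.ofReal ((d : ℝ) / q + 1) *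
          (ENNReal.ofReal G0 * V)))
      = ENNReal.ofReal (2 * (K1 q t + t) / ((1 - t) ^ (2 * ((n : ℝ) + q))) *
          (G0 * (((d : ℝ) / q + 1) * G0))) * V ^ 2 := by
    rw [ENNReal.ofReal_mul (by positivity), ENNReal.ofReal_mul hG0p.le,
      ENNReal.ofReal_mul (by positivity)]
    ring
  rw [hAe, hBe] at hF
  have hnum : 2 * (K1 q t + t) / ((1 - t) ^ (2 * ((n : ℝ) + q))) *
          (G0 * (((d : ℝ) / q + 1) * G0)) ≤ A * (121 * (n + q + 1) / d) := by
    have hk1 := K1_le n q hn0 hq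
    have hp1 := pow_low n q hn0 hq
    rw [← ht] at hk1 hp1
    have hpp : 0 < (1 - t) ^ (2 * ((n : ℝ) + q)) := by positivity
    have h5 : 2 * (K1 q t + t) / ((1 - t) ^ (2 * ((n : ℝ) + q))) ≤ 60 * q * t := by
      rw [div_le_iff₀ hpp]
      have h6 := mul_le_mul_of_nonneg_left hp1 (show 0 ≤ 8 * q * t by positivity)
      nlinarith
    have h6 : G0 * (((d : ℝ) / q + 1) * G0) = ((d : ℝ) + q) / q * G0 ^ 2 := by
      field_simp
    have h7 : t * (n + q + 1) = 1 := by rw [ht]; field_simp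
    have h8 : A * (121 * (n + q + 1) / d) = 121 * t * q ^ 2 * (t * (n + q + 1)) *
        ((G2 * Gk) / (d + k)) := by
      rw [hAdef]
      field_simp
    have h9 : ((d : ℝ) / q + 1) ^ 2 = ((d : ℝ) + q) ^ 2 / q ^ 2 := by
      field_simp
    rw [h9] at hgam
    have h10 : 60 * (((d : ℝ) + q) * G0 ^ 2) ≤ 121 * q ^ 2 * ((G2 * Gk) / (d + k)) := by
      have h11 : ((d : ℝ) + q) ^ 2 * G0 ^ 2 ≤ q ^ 2 * (G2 * Gk) := by
        have := mul_le_mul_of_nonneg_left hgam (show 0 ≤ q ^ 2 by positivity)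
        have e5 : q ^ 2 * (((d : ℝ) + q) ^ 2 / q ^ 2 * G0 ^ 2) = ((d : ℝ) + q) ^ 2 * G0 ^ 2 := by
          field_simp
        linarith
      have h12 : 121 * q ^ 2 * ((G2 * Gk) / (d + k)) = 121 * (q ^ 2 * (G2 * Gk)) / (d + k) := by
        ring
      rw [h12, le_div_iff₀ (by positivity)]
      have h13 : (d : ℝ) + k ≤ 2 * ((d : ℝ) + q) := by rw [hk]; linarith
      have h14 : 0 ≤ ((d : ℝ) + q) * G0 ^ 2 := by positivity
      nlinarith [mul_le_mul_of_nonneg_left h13 h14]
    calc 2 * (K1 q t + t) / ((1 - t) ^ (2 * ((n : ℝ) + q))) * (G0 * (((d : ℝ) / q + 1) * G0))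
        ≤ 60 * q * t * (G0 * (((d : ℝ) / q + 1) * G0)) := by gcongr
      _ = t * (60 * (((d : ℝ) + q) * G0 ^ 2)) := by rw [h6]; field_simp
      _ ≤ t * (121 * q ^ 2 * ((G2 * Gk) / (d + k))) := by gcongr
      _ = _ := by rw [h8, h7]; ring
  have hA0' : ENNReal.ofReal A ≠ 0 := by
    rw [Ne, ENNReal.ofReal_eq_zero, not_le]; exact hA0
  have hfin : ENNReal.ofReal A * I
      ≤ ENNReal.ofReal A * (ENNReal.ofReal (121 * (n + q + 1) / d) * V ^ 2) := by
    refine hF.trans ?_
    rw [← mul_assoc (ENNReal.ofReal A), ← ENNReal.ofReal_mul hA0.le]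
    exact mul_le_mul' (ENNReal.ofReal_le_ofReal hnum) le_rfl
  exact (ENNReal.mul_le_mul_iff_right hA0' ENNReal.ofReal_ne_top).1 hfin

end Pool.Agent.TH591.Sq
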