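import Mathlib
import Pool.Agent.Results.MP_eba1ef_gt.ThinSlabs
import Pool.Agent.TH591.Sq.Flat

set_option autoImplicit false
set_option linter.unusedSectionVars false

/-!
# Covering the unit balls of subspaces of `L_q`-sums of low-dimensional spaces
-/

namespace Pool.Agent.TH591.Sq

open MeasureTheory Set Filter
open scoped ENNReal NNReal Topology

open Pool.Agent.Results.MP_eba1ef_gt.ThinSlabs (flatness balanced_of_symm)

/-- The flatness of the unit ball. -/
theorem flat_le (d : ℕ) (hd : 1 ≤ d) (K : Set (EuclideanSpace ℝ (Fin d)))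
    (hK : Convex ℝ K) (hKc : IsCompact K) (hKi : (interior K).Nonempty)
    (hKs : ∀ x ∈ K, -x ∈ K) (n : ℕ) (q : ℝ) (hq : 1 ≤ q)
    {Ω : Type*} [MeasurableSpace Ω] (μ : Measure Ω) [SFinite μ]
    (h : Ω → Seminorm ℝ (EuclideanSpace ℝ (Fin d)))
    (hmeas : Measurable fun z : Ω × EuclideanSpace ℝ (Fin d) => h z.1 z.2)
    (hrank : ∀ ω, ∃ W : Submodule ℝ (EuclideanSpace ℝ (Fin d)), (∀ w ∈ W, h ω w = 0) ∧
      d ≤ Module.finrank ℝ W + n)
    (hint : ∀ x, Integrable (fun ω => h ω x ^ q) μ)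
    (hnorm : ∀ x, gauge K x ^ q = ∫ ω, h ω x ^ q ∂μ) :
    flatness K ≤ 11 * √((n + q + 1) / d) := by
  obtain ⟨z, hz⟩ := hKi
  have hnegK : -K = K := by
    ext x
    rw [Set.mem_neg]
    exact ⟨fun h => by simpa using hKs _ h, fun h => hKs x h⟩
  have hz' : -z ∈ interior K := by
    have h1 : -z ∈ -(interior K) := by simpa using hz
    have h2 : -(interior K) = interior (-K) := by
      rw [← Set.image_neg_eq_neg, ← Set.image_neg_eq_neg]
      exact (Homeomorph.neg _).image_interior K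
    rw [h2, hnegK] at h1
    exact h1
  have h0i : (0 : EuclideanSpace ℝ (Fin d)) ∈ interior K := by
    have h := hK.interior hz hz' (show (0 : ℝ) ≤ 1 / 2 by norm_num)
      (show (0 : ℝ) ≤ 1 / 2 by norm_num) (by norm_num)
    have e : (1 / 2 : ℝ) • z + (1 / 2 : ℝ) • (-z) = 0 := by
      rw [smul_neg, add_neg_cancel]
    rwa [e] at h
  have hnhds : K ∈ nhds (0 : EuclideanSpace ℝ (Fin d)) := mem_interior_iff_mem_nhds.mp h0i
  have habs : Absorbent ℝ K := absorbent_nhds_zero hnhds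
  let p : Seminorm ℝ (EuclideanSpace ℝ (Fin d)) :=
    gaugeSeminorm (balanced_of_symm hK hKs) hK habs
  have hp : ∀ x, p x = gauge K x := fun x => rfl
  have hpf : (gauge K) = (p : EuclideanSpace ℝ (Fin d) → ℝ) := rfl
  have hball : {y : EuclideanSpace ℝ (Fin d) | p y ≤ 1} = K := by
    ext y
    rw [Set.mem_ofPred_eq, hp, gauge_le_one_iff_mem_closure hK hnhds, hKc.isClosed.closure_eq]
  have hV0 : volume K ≠ 0 := (Measure.measure_pos_of_mem_nhds volume hnhds).ne'
  have hVt : volume K ≠ ⊤ := hKc.measure_lt_top.ne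
  have hVr : 0 < (volume K).toReal := ENNReal.toReal_pos hV0 hVt
  obtain ⟨R, hR0, hR⟩ : ∃ R : ℝ, 0 < R ∧ K ⊆ Metric.closedBall 0 R := by
    obtain ⟨R, hR⟩ := hKc.isBounded.subset_closedBall (0 : EuclideanSpace ℝ (Fin d))
    exact ⟨max R 1, by positivity, hR.trans (Metric.closedBall_subset_closedBall (le_max_left _ _))⟩
  have hcp : ∀ x, (1 / R) * ‖x‖ ≤ p x := by
    intro x
    rw [hp, one_div, mul_comm, ← div_eq_mul_inv]
    exact le_gauge_of_subset_closedBall habs hR0.le hR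
  choose W hW hWn using hrank
  have H : IsInt μ q p h := ⟨hmeas, hint, fun x => by rw [hp]; exact hnorm x⟩
  have hfr : Module.finrank ℝ (EuclideanSpace ℝ (Fin d)) = d := by simp
  have hsq := H.mean_sq hq (1 / R) (by positivity) hcp W hW n
    (fun ω => by rw [hfr]; exact hWn ω) (by rw [hfr]; omega)
  rw [hball, hfr] at hsq
  have hd0 : (0 : ℝ) < d := by exact_mod_cast (by omega : 0 < d)
  have hρ0 : 0 < 11 * √((n + q + 1) / d) := by
    have : 0 < ((n : ℝ) + q + 1) / d := by positivity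
    positivity
  have hρ2 : (11 * √((n + q + 1) / d)) ^ 2 = 121 * (n + q + 1) / d := by
    rw [mul_pow, Real.sq_sqrt (by positivity)]
    ring
  rw [← hρ2] at hsq
  have hfi := flat_int p K hVt R (fun x hx => by simpa using hR hx) hKc.measurableSet _ hρ0 hsq
  unfold flatness
  rw [hpf, div_le_iff₀ (by positivity)]
  exact hfi

/-- The covering theorem. -/
theorem cover (d : ℕ) (hd : 2 ≤ d) (K : Set (EuclideanSpace ℝ (Fin d)))
    (hK : Convex ℝ K) (hKc : IsCompact K) (hKi : (interior K).Nonempty)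
    (hKs : ∀ x ∈ K, -x ∈ K) (n : ℕ) (q : ℝ) (hq : 1 ≤ q)
    {Ω : Type*} [MeasurableSpace Ω] (μ : Measure Ω) [SFinite μ]
    (h : Ω → Seminorm ℝ (EuclideanSpace ℝ (Fin d)))
    (hmeas : Measurable fun z : Ω × EuclideanSpace ℝ (Fin d) => h z.1 z.2)
    (hrank : ∀ ω, ∃ W : Submodule ℝ (EuclideanSpace ℝ (Fin d)), (∀ w ∈ W, h ω w = 0) ∧
      d ≤ Module.finrank ℝ W + n)
    (hint : ∀ x, Integrable (fun ω => h ω x ^ q) μ)
    (hnorm : ∀ x, gauge K x ^ q = ∫ ω, h ω x ^ q ∂μ) :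
    ∃ T : Finset (EuclideanSpace ℝ (Fin d)),
      K ⊆ ⋃ t ∈ T, (fun x => t + x) '' interior K ∧
      (T.card : ℝ) ≤ 1 + 13 * d * Real.log (4 * d + 1) * 2 ^ d *
        Real.exp (-√(d / (n + q + 1)) / 8140) ∧
      (19 * d * Real.log (4 * d + 1) * Real.exp (-√(d / (n + q + 1)) / 8140) ≤ 1 →
        T.card < 2 ^ d) := by
  have hfl := flat_le d (by omega) K hK hKc hKi hKs n q hq μ h hmeas hrank hint hnorm
  have hd0 : (0 : ℝ) < d := by exact_mod_cast (by omega : 0 < d)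
  have hn0 : (0 : ℝ) < n + q + 1 := by positivity
  have hρ0 : 0 < 11 * √((n + q + 1) / d) := by
    have : 0 < ((n : ℝ) + q + 1) / d := by positivity
    positivity
  obtain ⟨T, h1, h2, h3⟩ :=
    (Pool.Agent.Results.MP_eba1ef_gt.ThinSlabs.result d hd K hK hKc hKi hKs).2.1 _ hρ0 hfl
  have e : -1 / (740 * (11 * √((n + q + 1) / d))) = -√(d / (n + q + 1)) / 8140 := by
    have h4 : √((d : ℝ) / (n + q + 1)) = (√((n + q + 1) / d))⁻¹ := by
      rw [← Real.sqrt_inv, inv_div]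
    rw [h4]
    have h5 : 0 < √((n + q + 1) / (d : ℝ)) := by positivity
    field_simp
    norm_num
  rw [e] at h2 h3
  exact ⟨T, h1, h2, h3⟩

end Pool.Agent.TH591.Sq
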