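import Mathlib
import Pool.Agent.TH591.Lie.Final
import Pool.Agent.TH591.Sq.Final

set_option autoImplicit false
set_option linter.unusedSectionVars false

/-!
# The bodies `{x | ∫ h_ω(x)^q dμ(ω) ≤ 1}`
-/

namespace Pool.Agent.TH591.Sq

open MeasureTheory Set Filter
open scoped ENNReal NNReal Topology

section
variable {E : Type*} [NormedAddCommGroup E] [InnerProductSpace ℝ E] [FiniteDimensional ℝ E]
  [MeasurableSpace E] [BorelSpace E]
variable {Ω : Type*} [MeasurableSpace Ω] {μ : Measure Ω} {q : ℝ} {h : Ω → Seminorm ℝ E}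

/-- the function `x ↦ ∫ h_ω(x)^q dμ(ω)` is even, convex and homogeneous -/
theorem qh_int (hq : 1 ≤ q) (hint : ∀ x, Integrable (fun ω => h ω x ^ q) μ) :
    QH q fun x => ∫ ω, h ω x ^ q ∂μ := by
  have hconv : ∀ (a b : E) (s : ℝ), 0 ≤ s → s ≤ 1 → ∫ ω, h ω (s • a + (1 - s) • b) ^ q ∂μ
      ≤ s * (∫ ω, h ω a ^ q ∂μ) + (1 - s) * ∫ ω, h ω b ^ q ∂μ := by
    intro a b s hs hs1
    rw [← integral_const_mul, ← integral_const_mul,
      ← integral_add ((hint a).const_mul s) ((hint b).const_mul (1 - s))]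
    exact integral_mono (hint _) (((hint a).const_mul s).add ((hint b).const_mul (1 - s)))
      fun ω => qh_pow q hq (h ω) a b s hs hs1
  refine ⟨?_, fun y => integral_nonneg fun ω => Real.rpow_nonneg (apply_nonneg _ _) _,
    fun y => ?_, hconv, fun s y hs => ?_⟩
  · have hc : ConvexOn ℝ univ fun x => ∫ ω, h ω x ^ q ∂μ := by
      refine ⟨convex_univ, fun x _ y _ a b ha hb hab => ?_⟩
      have h1 := hconv x y a ha (by linarith)
      rw [show 1 - a = b by linarith] at h1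
      simpa only [smul_eq_mul] using h1
    exact hc.locallyLipschitz.continuous
  · simp only [map_neg_eq_map]
  · rw [← integral_const_mul]
    congr 1
    funext ω
    exact qh_hom q (h ω) s y hs
end

/-- The covering theorem for sublevel sets. -/
theorem cover' (d : ℕ) (hd : 2 ≤ d) (K : Set (EuclideanSpace ℝ (Fin d)))
    (hKb : Bornology.IsBounded K) (n : ℕ) (q : ℝ) (hq : 1 ≤ q)
    {Ω : Type*} [MeasurableSpace Ω] (μ : Measure Ω) [SFinite μ]
    (h : Ω → Seminorm ℝ (EuclideanSpace ℝ (Fin d)))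
    (hmeas : Measurable fun z : Ω × EuclideanSpace ℝ (Fin d) => h z.1 z.2)
    (hrank : ∀ ω, ∃ W : Submodule ℝ (EuclideanSpace ℝ (Fin d)), (∀ w ∈ W, h ω w = 0) ∧
      d ≤ Module.finrank ℝ W + n)
    (hint : ∀ x, Integrable (fun ω => h ω x ^ q) μ)
    (hKdef : K = {x | ∫ ω, h ω x ^ q ∂μ ≤ 1}) :
    ∃ T : Finset (EuclideanSpace ℝ (Fin d)),
      K ⊆ ⋃ t ∈ T, (fun x => t + x) '' interior K ∧
      (T.card : ℝ) ≤ 1 + 13 * d * Real.log (4 * d + 1) * 2 ^ d *
        Real.exp (-√(d / (n + q + 1)) / 8140) ∧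
      (19 * d * Real.log (4 * d + 1) * Real.exp (-√(d / (n + q + 1)) / 8140) ≤ 1 →
        T.card < 2 ^ d) := by
  set φ : EuclideanSpace ℝ (Fin d) → ℝ := fun x => ∫ ω, h ω x ^ q ∂μ with hφ
  have hQ : QH q φ := qh_int hq hint
  have hq0 : 0 < q := by linarith
  have hφ0 : φ 0 = 0 := by
    show ∫ ω, h ω 0 ^ q ∂μ = 0
    simp [Real.zero_rpow hq0.ne']
  have hmem : ∀ x, x ∈ K ↔ φ x ≤ 1 := by
    intro x; rw [hKdef]; exact Iff.rfl
  have hK : Convex ℝ K := by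
    intro x hx y hy a b ha hb hab
    rw [hmem] at hx hy ⊢
    have h1 := hQ.conv x y a ha (by linarith)
    rw [show 1 - a = b by linarith] at h1
    nlinarith
  have hKs : ∀ x ∈ K, -x ∈ K := by
    intro x hx
    rw [hmem] at hx ⊢
    rw [hQ.even]; exact hx
  have hKcl : IsClosed K := by
    rw [hKdef]
    exact isClosed_le hQ.cont continuous_const
  have hKc : IsCompact K := Metric.isCompact_of_isClosed_isBounded hKcl hKb
  have h0i : (0 : EuclideanSpace ℝ (Fin d)) ∈ interior K := by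
    rw [mem_interior]
    refine ⟨{x | φ x < 1}, fun x hx => (hmem x).2 (le_of_lt hx),
      isOpen_lt hQ.cont continuous_const, ?_⟩
    show φ 0 < 1
    rw [hφ0]; norm_num
  have hnhds : K ∈ nhds (0 : EuclideanSpace ℝ (Fin d)) := mem_interior_iff_mem_nhds.mp h0i
  have habs : Absorbent ℝ K := absorbent_nhds_zero hnhds
  -- the gauge
  have hone : ∀ y, φ y = 1 → gauge K y = 1 := by
    intro y hy
    apply le_antisymm
    · exact gauge_le_one_of_mem ((hmem y).2 hy.le)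
    · by_contra hlt
      rw [not_le] at hlt
      obtain ⟨b, hb0, hb1, hyb⟩ := exists_lt_of_gauge_lt habs hlt
      obtain ⟨z, hz, hzy⟩ := hyb
      have h1 : φ y = b ^ q * φ z := by
        rw [← hzy]
        exact hQ.hom b z hb0
      have h2 : b ^ q < 1 := Real.rpow_lt_one hb0.le hb1 hq0
      have h3 := (hmem z).1 hz
      have h4 := hQ.nonneg z
      have h5 : 0 ≤ b ^ q := by positivity
      nlinarith
  have hpos : ∀ x, x ≠ 0 → 0 < φ x := by
    intro x hx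
    refine lt_of_le_of_ne (hQ.nonneg x) fun h0 => ?_
    obtain ⟨R, hR⟩ := hKb.subset_closedBall (0 : EuclideanSpace ℝ (Fin d))
    have hn : 0 < ‖x‖ := norm_pos_iff.2 hx
    have hs : 0 < (|R| + 1) / ‖x‖ := by positivity
    have h1 : ((|R| + 1) / ‖x‖) • x ∈ K := by
      rw [hmem, hQ.hom _ _ hs, ← h0, mul_zero]
      norm_num
    have h2 := hR h1
    rw [mem_closedBall_zero_iff, norm_smul, Real.norm_of_nonneg hs.le,
      div_mul_cancel₀ _ hn.ne'] at h2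
    have h3 := le_abs_self R
    linarith
  have hnorm : ∀ x, gauge K x ^ q = ∫ ω, h ω x ^ q ∂μ := by
    intro x
    show gauge K x ^ q = φ x
    rcases eq_or_ne x 0 with rfl | hx
    · rw [gauge_zero, hφ0, Real.zero_rpow hq0.ne']
    · have hp := hpos x hx
      set r : ℝ := φ x ^ (1 / q) with hr
      have hr0 : 0 < r := Real.rpow_pos_of_pos hp _
      have hrq : r ^ q = φ x := by
        rw [hr, ← Real.rpow_mul hp.le, one_div, inv_mul_cancel₀ hq0.ne', Real.rpow_one]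
      have h1 : φ (r⁻¹ • x) = 1 := by
        rw [hQ.hom _ _ (inv_pos.2 hr0), Real.inv_rpow hr0.le, hrq, inv_mul_cancel₀ hp.ne']
      have h2 := hone _ h1
      rw [gauge_smul_of_nonneg (inv_pos.2 hr0).le, smul_eq_mul,
        inv_mul_eq_iff_eq_mul₀ hr0.ne', mul_one] at h2
      rw [h2, hrq]
  exact cover d hd K hK hKc ⟨0, h0i⟩ hKs n q hq μ h hmeas hrank hint hnorm

/-- the bound in terms of `s` -/
theorem cover_s (d : ℕ) (hd : 2 ≤ d) (K : Set (EuclideanSpace ℝ (Fin d)))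
    (hKb : Bornology.IsBounded K) (n : ℕ) (q : ℝ) (hq : 1 ≤ q)
    {Ω : Type*} [MeasurableSpace Ω] (μ : Measure Ω) [SFinite μ]
    (h : Ω → Seminorm ℝ (EuclideanSpace ℝ (Fin d)))
    (hmeas : Measurable fun z : Ω × EuclideanSpace ℝ (Fin d) => h z.1 z.2)
    (hrank : ∀ ω, ∃ W : Submodule ℝ (EuclideanSpace ℝ (Fin d)), (∀ w ∈ W, h ω w = 0) ∧
      d ≤ Module.finrank ℝ W + n)
    (hint : ∀ x, Integrable (fun ω => h ω x ^ q) μ)
    (hKdef : K = {x | ∫ ω, h ω x ^ q ∂μ ≤ 1}) (s : ℝ) (hs : s = √(d / (n + q + 1)) / 16280) :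
    ∃ T : Finset (EuclideanSpace ℝ (Fin d)),
      K ⊆ ⋃ t ∈ T, (fun x => t + x) '' interior K ∧
      (T.card : ℝ) ≤ 1 + 13 * d * Real.log (4 * d + 1) * 2 ^ d * Real.exp (-(2 * s)) ∧
      (5 ≤ s → Real.log d ≤ s → T.card < 2 ^ d) := by
  obtain ⟨T, h1, h2, h3⟩ := cover' d hd K hKb n q hq μ h hmeas hrank hint hKdef
  have e : -√(d / (n + q + 1)) / 8140 = -(2 * s) := by
    rw [hs]; ring
  rw [e] at h2
  refine ⟨T, h1, h2, fun hs5 hds => ?_⟩
  have hd1 : (1 : ℝ) ≤ d := by exact_mod_cast (by omega : 1 ≤ d)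
  have h4 := Pool.Agent.TH591.Lie.strict_of_exp d hd1 s hs5 hds
  have h5 : (4 : ℝ) ≤ 2 ^ d := by
    calc (4 : ℝ) = 2 ^ 2 := by norm_num
      _ ≤ 2 ^ d := pow_le_pow_right₀ (by norm_num) hd
  have h6 : (T.card : ℝ) < ((2 ^ d : ℕ) : ℝ) := by
    push_cast
    calc (T.card : ℝ) ≤ 1 + 13 * d * Real.log (4 * d + 1) * 2 ^ d * Real.exp (-(2 * s)) := h2
      _ = 1 + 13 / 18 * 2 ^ d * (18 * d * Real.log (4 * d + 1) * Real.exp (-(2 * s))) := by ring
      _ ≤ 1 + 13 / 18 * 2 ^ d * 1 := by gcongr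
      _ < 2 ^ d := by linarith
  exact_mod_cast h6

/-- for given `n` and `q` the condition is satisfied in high dimensions -/
theorem exists_dim (n : ℕ) (q : ℝ) (hq : 1 ≤ q) : ∃ d₀ : ℕ, ∀ d : ℕ, d₀ ≤ d →
    5 ≤ √(d / (n + q + 1)) / 16280 ∧ Real.log d ≤ √(d / (n + q + 1)) / 16280 := by
  have hn0 : (0 : ℝ) < n + q + 1 := by positivity
  set C : ℝ := 16280 * √(n + q + 1) with hC
  have hC0 : 0 < C := by positivity
  have hsq : ∀ d : ℕ, √((d : ℝ) / (n + q + 1)) / 16280 = √d / C := by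
    intro d
    rw [Real.sqrt_div (by positivity), hC]
    field_simp
  have h1 : Tendsto (fun d : ℕ => √(d : ℝ)) atTop atTop :=
    Real.tendsto_sqrt_atTop.comp tendsto_natCast_atTop_atTop
  have h2 : ∀ᶠ d : ℕ in atTop, 5 * C ≤ √(d : ℝ) := h1.eventually_ge_atTop _
  have h3 : ∀ᶠ x : ℝ in atTop, ‖Real.log x‖ ≤ C⁻¹ * ‖x ^ (1 / 2 : ℝ)‖ :=
    (isLittleO_log_rpow_atTop (by norm_num : (0 : ℝ) < 1 / 2)).bound (inv_pos.2 hC0)
  have h4 : ∀ᶠ d : ℕ in atTop, ‖Real.log (d : ℝ)‖ ≤ C⁻¹ * ‖(d : ℝ) ^ (1 / 2 : ℝ)‖ :=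
    tendsto_natCast_atTop_atTop.eventually h3
  obtain ⟨d₀, hd₀⟩ := (h2.and h4).exists_forall_of_atTop
  refine ⟨d₀, fun d hd => ?_⟩
  obtain ⟨h5, h6⟩ := hd₀ d hd
  rw [hsq]
  refine ⟨by rw [le_div_iff₀ hC0]; exact h5, ?_⟩
  rw [← Real.sqrt_eq_rpow, Real.norm_of_nonneg (Real.sqrt_nonneg _)] at h6
  calc Real.log d ≤ ‖Real.log (d : ℝ)‖ := Real.le_norm_self _
    _ ≤ C⁻¹ * √d := h6
    _ = √d / C := by ring

end Pool.Agent.TH591.Sq
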